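import Pool.Agent.Helper29.EX.Trim
import Mathlib.Data.Multiset.Sort

/-!
# Addition of copies
-/

set_option autoImplicit false

namespace Pool.Agent.Helper29.EX

open Pool.Agent.Helper20.OP

variable {V : Type} {E : V → V → Prop} {S : Set V} {m s : ℕ} {f : Fin m → Fin s → V}

/-- `E` with one more copy of `f 0` -/
def ext {c t : ℕ} (E : V → V → Prop) (S : Set V) (f : Fin (t + 1) → Fin c → V) :
    V ⊕ Fin c → V ⊕ Fin c → Prop
  | .inl x, .inl y => E x y
  | .inl x, .inr b => x ∈ S ∧ E x (f 0 b)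
  | .inr a, .inl y => y ∈ S ∧ E (f 0 a) y
  | .inr a, .inr b => E (f 0 a) (f 0 b)

/-- the copies in the extension -/
def extF {c t : ℕ} (f : Fin (t + 1) → Fin c → V) : Fin (t + 1 + 1) → Fin c → V ⊕ Fin c :=
  Fin.cases Sum.inr (fun i a => Sum.inl (f i a))

lemma Gr.ext {c t : ℕ} (hE : Gr E) (S : Set V) (f : Fin (t + 1) → Fin c → V) : Gr (EX.ext E S f) := by
  refine ⟨?_, ?_⟩
  · rintro (x | a)
    · exact hE.irr x
    · exact hE.irr _
  · rintro (x | a) (y | b) h
    · exact hE.symm _ _ h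
    · exact ⟨h.1, hE.symm _ _ h.2⟩
    · exact ⟨h.1, hE.symm _ _ h.2⟩
    · exact hE.symm _ _ h

lemma Cp.ext {c t : ℕ} (hE : Gr E) {f : Fin (t + 1) → Fin c → V} (hf : Cp E S (t + 1) c f) :
    Cp (EX.ext E S f) (Sum.inl '' S) (t + 1 + 1) c (extF f) := by
  refine ⟨?_, ?_, ?_, ?_, ?_, ?_⟩
  · intro i
    refine Fin.cases ?_ (fun i => ?_) i
    · intro a j
      refine Fin.cases ?_ (fun j => ?_) j
      · intro b h
        exact ⟨rfl, Sum.inr_injective h⟩
      · intro b h
        exact absurd h (by simp [extF])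
    · intro a j
      refine Fin.cases ?_ (fun j => ?_) j
      · intro b h
        exact absurd h (by simp [extF])
      · intro b h
        obtain ⟨h1, h2⟩ := hf.inj i a j b (Sum.inl_injective h)
        exact ⟨congrArg _ h1, h2⟩
  · intro i
    refine Fin.cases ?_ (fun i => ?_) i
    · rintro a ⟨x, hx, h⟩
      exact absurd h (by simp [extF])
    · rintro a ⟨x, hx, h⟩
      exact hf.out i a (by
        have := Sum.inl_injective h
        rwa [this] at hx)
  · intro i
    refine Fin.cases ?_ (fun i => ?_) i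
    · rintro a (w | b) h
      · exact Or.inl ⟨w, h.1, rfl⟩
      · exact Or.inr ⟨b, rfl⟩
    · rintro a (w | b) h
      · rcases hf.clo i a w h with h1 | ⟨b, rfl⟩
        · exact Or.inl ⟨w, h1, rfl⟩
        · exact Or.inr ⟨b, rfl⟩
      · exact absurd h.1 (hf.out i a)
  · have key : ∀ i a b, EX.ext E S f (extF f i a) (extF f i b) ↔ E (f 0 a) (f 0 b) := by
      intro i
      refine Fin.cases ?_ (fun i => ?_) i
      · exact fun a b => Iff.rfl
      · exact fun a b => hf.iso i 0 a b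
    exact fun i j a b => (key i a b).trans (key j a b).symm
  · have key : ∀ i a, ∀ x ∈ S, (EX.ext E S f (extF f i a) (Sum.inl x) ↔ E (f 0 a) x) := by
      intro i
      refine Fin.cases ?_ (fun i => ?_) i
      · exact fun a x hx => ⟨fun h => h.2, fun h => ⟨hx, h⟩⟩
      · exact fun a x hx => hf.att i 0 a x hx
    rintro i j a _ ⟨x, hx, rfl⟩
    exact (key i a x hx).trans (key j a x hx).symm
  · have key : ∀ i a b, EX.ext E S f (extF f i a) (extF f i b) ↔ E (f 0 a) (f 0 b) := by
      intro i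
      refine Fin.cases ?_ (fun i => ?_) i
      · exact fun a b => Iff.rfl
      · exact fun a b => hf.iso i 0 a b
    exact fun i A hA h => hf.con 0 A hA fun a ha b hab => h a ha b ((key i a b).2 hab)

/-- Availability of sizes at most `c` persists when a copy with `c` elements is added. -/
theorem av_add {c t r r' : ℕ} (hE : Gr E) (hrt : r ≤ t) (hr' : r' ≤ r) {σ : Fin r' → V}
    {f : Fin (t + 1) → Fin c → V} (hf : Cp E (Set.range σ) (t + 1) c f) (hs : s ≤ c)
    (h : Av E r (t + 1) s) : Av (ext E (Set.range σ) f) r (t + 1) s := by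
  rcases Nat.lt_or_ge s c with hlt | hge
  · obtain ⟨r₁, hr₁, τ, g, hg⟩ := h
    have hno : ∀ i a x, g i a ∈ Set.range σ → ¬ (E (g i a) (f 0 x)) := by
      intro i a b hi hab
      obtain ⟨k, hk⟩ := exists_avoid hf (by omega : r₁ < t + 1) τ
      have h1 : E (g i a) (f k b) :=
        hE.symm _ _ ((hf.att 0 k b _ hi).1 (hE.symm _ _ hab))
      rcases hg.clo i a _ h1 with ⟨x, hx⟩ | ⟨b', hb'⟩
      · exact hk x b hx
      · have : c ≤ s := hf.absorb (T := Set.range τ) hg.clo k (by
          rintro b ⟨x, hx⟩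
          exact hk x b hx) hb'
        omega
    refine ⟨r₁, hr₁, fun i => Sum.inl (τ i), fun i a => Sum.inl (g i a), ?_⟩
    refine ⟨fun i a j b h => hg.inj i a j b (Sum.inl_injective h), ?_, ?_, fun i j a b =>
      hg.iso i j a b, ?_, fun i A hA h => hg.con i A hA fun a ha b hab => h a ha b hab⟩
    · rintro i a ⟨x, hx⟩
      exact hg.out i a ⟨x, Sum.inl_injective hx⟩
    · rintro i a (w | b) hw
      · rcases hg.clo i a w hw with ⟨x, hx⟩ | ⟨b, hb⟩
        · exact Or.inl ⟨x, congrArg Sum.inl hx⟩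
        · exact Or.inr ⟨b, congrArg Sum.inl hb⟩
      · exact absurd hw.2 (hno i a b hw.1)
    · rintro i j a _ ⟨x, rfl⟩
      exact hg.att i j a _ ⟨x, rfl⟩
  · obtain rfl : s = c := le_antisymm hs hge
    have h1 := (hf.ext hE).sel Fin.castSucc (Fin.castSucc_injective _)
    have h2 : (Sum.inl '' Set.range σ : Set (V ⊕ Fin s)) = Set.range fun i => Sum.inl (σ i) := by
      ext x
      simp
    rw [h2] at h1
    exact ⟨r', hr', _, _, h1⟩

/-- Addition of copies, the sizes are decreasing. -/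
theorem add_list {r t q : ℕ} (hrt : r ≤ t) (hqt : q < t + 2) {Q : ∀ V : Type, Str 1 V → Prop}
    (hQ : Inv q Q) : ∀ (L : List ℕ) (V : Type) [Finite V] (E : V → V → Prop), L.Pairwise (· ≥ ·) →
    Gr E → Q V (fun _ => E) → (∀ s ∈ L, Av E r (t + 1) s) →
    ∃ (W : Type) (_ : Finite W) (E' : W → W → Prop), Gr E' ∧ Q W (fun _ => E') ∧
      Nat.card W = Nat.card V + L.sum := by
  intro L
  induction L with
  | nil => exact fun V _ E _ hE hQV _ => ⟨V, inferInstance, E, hE, hQV, by simp⟩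
  | cons c L ih =>
    intro V _ E hL hE hQV hav
    obtain ⟨h1, h2⟩ := List.pairwise_cons.1 hL
    obtain ⟨r', hr', σ, f, hf⟩ := hav c List.mem_cons_self
    have hQ' : Q (V ⊕ Fin c) (fun _ => ext E (Set.range σ) f) :=
      (hQ _ _ _ _ (fun i => i.elim0) _ (ef_drop (hE.ext _ f) (hf.ext hE) q 0 Sum.inl 0 _ (by omega)
        Sum.inl_injective (fun x y => Iff.rfl) (by
          rintro (y | a)
          · exact ⟨fun _ b => by simp [extF], fun _ => ⟨y, rfl⟩⟩
          · constructor
            · rintro ⟨x, hx⟩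
              exact absurd hx (by simp)
            · intro h
              exact absurd rfl (h a)))).1 hQV
    obtain ⟨W, hW, E', h3, h4, h5⟩ := ih (V ⊕ Fin c) (ext E (Set.range σ) f) h2 (hE.ext _ f) hQ'
      (fun s hs => av_add hE hrt hr' hf (h1 s hs) (hav s (List.mem_cons_of_mem _ hs)))
    refine ⟨W, hW, E', h3, h4, ?_⟩
    rw [h5, Nat.card_sum, Nat.card_fin, List.sum_cons]
    omega

/-- Addition of copies. -/
theorem add_mon {r t q : ℕ} (hrt : r ≤ t) (hqt : q < t + 2) {Q : ∀ V : Type, Str 1 V → Prop}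
    (hQ : Inv q Q) {V : Type} [Finite V] {E : V → V → Prop} {T : Set ℕ} (hE : Gr E)
    (hQV : Q V (fun _ => E)) (hT : ∀ s ∈ T, Av E r (t + 1) s) {k : ℕ} (hk : k ∈ Mon T) :
    ∃ (W : Type) (_ : Finite W) (E' : W → W → Prop), Gr E' ∧ Q W (fun _ => E') ∧
      Nat.card W = Nat.card V + k := by
  obtain ⟨M, hM, rfl⟩ := AddSubmonoid.exists_multiset_of_mem_closure hk
  obtain ⟨W, hW, E', h1, h2, h3⟩ := add_list hrt hqt hQ (M.sort (· ≥ ·)) V E
    (M.pairwise_sort _) hE hQV
    (fun s hs => hT s (hM s ((Multiset.mem_sort _).1 hs)))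
  refine ⟨W, hW, E', h1, h2, ?_⟩
  rw [h3]
  congr 1
  have := congrArg Multiset.sum (M.sort_eq (· ≥ ·))
  rwa [Multiset.sum_coe] at this

end Pool.Agent.Helper29.EX
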