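import Pool.Agent.Helper29.EX.Defs

/-!
# Availability is definable
-/

set_option autoImplicit false

namespace Pool.Agent.Helper29.EX

open Pool.Agent.Helper20.OP

lemma def_cp {N m s r : ℕ} (eσ : Fin r → Fin N) (ef : Fin m → Fin s → Fin N) :
    Def 1 N (fun V R v => Cp (R 0) (Set.range fun x => v (eσ x)) m s (fun i a => v (ef i a))) := by
  have d1 : Def 1 N (fun V _ v => ∀ i a j b, v (ef i a) = v (ef j b) → i = j ∧ a = b) :=
    Def.all_fin fun i => Def.all_fin fun a => Def.all_fin fun j => Def.all_fin fun b =>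
      (Def.eq _ _).imp (Def.const _)
  have d2 : Def 1 N (fun V _ v => ∀ i a x, ¬ v (ef i a) = v (eσ x)) :=
    Def.all_fin fun i => Def.all_fin fun a => Def.all_fin fun x => (Def.eq _ _).not
  have d3 : Def 1 N (fun V R v => ∀ i a, ∀ w : V, R 0 (v (ef i a)) w →
      ((∃ x, w = v (eσ x)) ∨ ∃ b, w = v (ef i b))) :=
    Def.all_fin fun i => Def.all_fin fun a => Def.all ((Def.rel 0 _ _).imp
      ((Def.ex_fin fun x => Def.eq _ _).or (Def.ex_fin fun b => Def.eq _ _)))
  have d4 : Def 1 N (fun V R v => ∀ i j a b, (R 0 (v (ef i a)) (v (ef i b)) ↔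
      R 0 (v (ef j a)) (v (ef j b)))) :=
    Def.all_fin fun i => Def.all_fin fun j => Def.all_fin fun a => Def.all_fin fun b =>
      (Def.rel 0 _ _).iff (Def.rel 0 _ _)
  have d5 : Def 1 N (fun V R v => ∀ i j a x, (R 0 (v (ef i a)) (v (eσ x)) ↔
      R 0 (v (ef j a)) (v (eσ x)))) :=
    Def.all_fin fun i => Def.all_fin fun j => Def.all_fin fun a => Def.all_fin fun b =>
      (Def.rel 0 _ _).iff (Def.rel 0 _ _)
  have d6 : Def 1 N (fun V R v => ∀ (i : Fin m) (A : Set (Fin s)), A.Nonempty →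
      (∀ a, a ∈ A → ∀ b, R 0 (v (ef i a)) (v (ef i b)) → b ∈ A) → A = Set.univ) :=
    Def.all_fin fun i => Def.all_fin fun A => (Def.const _).imp
      ((Def.all_fin fun a => (Def.const _).imp (Def.all_fin fun b =>
        (Def.rel 0 _ _).imp (Def.const _))).imp (Def.const _))
  refine ((((d1.and d2).and (d3.and d4)).and (d5.and d6))).congr fun V R v => ?_
  constructor
  · intro h
    refine ⟨⟨⟨h.inj, fun i a x hx => h.out i a ⟨x, hx.symm⟩⟩, fun i a w hw => ?_, h.iso⟩,
      fun i j a x => h.att i j a _ ⟨x, rfl⟩, h.con⟩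
    rcases h.clo i a w hw with ⟨x, hx⟩ | hb
    · exact Or.inl ⟨x, hx.symm⟩
    · exact Or.inr hb
  · rintro ⟨⟨⟨h1, h2⟩, h3, h4⟩, h5, h6⟩
    refine ⟨h1, ?_, fun i a w hw => ?_, h4, ?_, h6⟩
    · rintro i a ⟨x, hx⟩
      exact h2 i a x hx.symm
    · rcases h3 i a w hw with ⟨x, hx⟩ | hb
      · exact Or.inl ⟨x, hx.symm⟩
      · exact Or.inr hb
    · rintro i j a _ ⟨x, rfl⟩
      exact h5 i j a x

/-- Availability is definable. -/
theorem def_av (r t s : ℕ) : Def0 1 (fun V R => Av (R 0) r t s) := by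
  have h1 : ∀ r' : Fin (r + 1), Def 1 0 (fun V R _ => ∃ (σ : Fin r' → V) (f : Fin (t * s) → V),
      Cp (R 0) (Set.range σ) t s (fun i a => f (finProdFinEquiv (i, a)))) := by
    intro r'
    refine Def.exTuple r' (P := fun V R _ σ => ∃ f : Fin (t * s) → V,
      Cp (R 0) (Set.range σ) t s (fun i a => f (finProdFinEquiv (i, a)))) ?_
    refine Def.exTuple (t * s) (P := fun V R v f => Cp (R 0)
      (Set.range fun j => v (Fin.natAdd 0 j)) t s (fun i a => f (finProdFinEquiv (i, a)))) ?_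
    exact def_cp _ _
  refine (Def.ex_fin h1).congr fun V R _ => ?_
  constructor
  · rintro ⟨r', hr', σ, f, hf⟩
    refine ⟨⟨r', by omega⟩, σ, fun x => f (finProdFinEquiv.symm x).1 (finProdFinEquiv.symm x).2, ?_⟩
    simpa using hf
  · rintro ⟨r', σ, f, hf⟩
    exact ⟨r', by omega, σ, _, hf⟩

end Pool.Agent.Helper29.EX
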