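import Pool.Agent.Helper29.EX.Pat
import Pool.Agent.Helper29.EX.Add
import Pool.Agent.Helper29.EX.DefAv
import Pool.Agent.Helper20.FS.DefOmit
import Pool.Agent.Helper20.OP.EF

/-!
# The sizes of the graphs which omit a forest of subdivided stars

`sizes_decomp`: every spectrum over such a class is a finite union of sets `B + M`, where `B` is the set of
the sizes of the graphs of bounded degree outside a small set with a first-order property and `M` is a
finitely generated submonoid of `ℕ`.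
-/

set_option autoImplicit false

namespace Pool.Agent.Helper29.EX

open FirstOrder FirstOrder.Language Pool.Agent.Helper20.Spectra Pool.Agent.Helper20.OP Pool.Agent.Helper20.FS

/-- the sizes of the graphs with the property `Q` which have bounded degree outside a small set -/
def bdSizes (z d : ℕ) (Q : ∀ V : Type, Str 1 V → Prop) : Set ℕ :=
  {n | 1 ≤ n ∧ ∃ R : Str 1 (Fin n), Gr (R 0) ∧ BD z d (R 0) ∧ Q (Fin n) R}

/-- definable conditions are determined by some finite round equivalence -/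
lemma Inv.of_def {Q : ∀ V : Type, Str 1 V → Prop} (h : Def0 1 Q) : ∃ q, Inv q Q := by
  obtain ⟨φ, hφ⟩ := h
  obtain ⟨q, hq⟩ := EFq.realize φ
  exact ⟨q, fun V W R S a c hac => (hφ V R a).symm.trans ((hq V W R S a c hac).trans (hφ W S c))⟩

lemma Inv.mono {q q' : ℕ} (hq : q ≤ q') {Q : ∀ V : Type, Str 1 V → Prop} (h : Inv q Q) : Inv q' Q :=
  fun V W R S a c hac => h V W R S a c (EFq.mono hq hac)

lemma str_eq {V : Type} (R : Str 1 V) : R = fun _ => R 0 := by
  funext i
  rw [Subsingleton.elim i 0]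

/-- transport to `Fin n` -/
lemma transport {V : Type} {E : V → V → Prop} {n : ℕ} (e : V ≃ Fin n) {Q : ∀ V : Type, Str 1 V → Prop}
    {q : ℕ} (hQ : Inv q Q) : Q V (fun _ => E) ↔ Q (Fin n) (fun _ x y => E (e.symm x) (e.symm y)) := by
  have key : ∀ (q r : ℕ) (a : Fin r → V), EFq q (fun _ : Fin 1 => E)
      (fun _ x y => E (e.symm x) (e.symm y)) a (fun i => e (a i)) := by
    have at0 : ∀ (r : ℕ) (a : Fin r → V), AtEq (fun _ : Fin 1 => E)
        (fun _ x y => E (e.symm x) (e.symm y)) a (fun i => e (a i)) := fun r a =>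
      ⟨fun i j => ⟨fun h => congrArg e h, fun h => e.injective h⟩, fun _ i j => by simp⟩
    have sn : ∀ (r : ℕ) (a : Fin r → V) (x : V),
        (Fin.snoc (fun i => e (a i)) (e x) : Fin (r + 1) → Fin n) =
          fun i => e ((Fin.snoc a x : Fin (r + 1) → V) i) := by
      intro r a x
      funext i
      refine Fin.lastCases ?_ (fun i => ?_) i
      · rw [Fin.snoc_last, Fin.snoc_last]
      · rw [Fin.snoc_castSucc, Fin.snoc_castSucc]
    intro q
    induction q with
    | zero => exact fun r a => at0 r a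
    | succ q ih =>
      intro r a
      refine ⟨at0 r a, fun x => ⟨e x, ?_⟩, fun y => ⟨e.symm y, ?_⟩⟩
      · rw [sn]
        exact ih (r + 1) _
      · have h1 := sn r a (e.symm y)
        rw [e.apply_symm_apply] at h1
        rw [h1]
        exact ih (r + 1) _
  exact hQ _ _ _ _ (fun i => i.elim0) _ (key q 0 _)

lemma Gr.equiv {V : Type} {E : V → V → Prop} {n : ℕ} (hE : Gr E) (e : V ≃ Fin n) :
    Gr (fun x y => E (e.symm x) (e.symm y)) :=
  ⟨fun _ => hE.irr _, fun _ _ => hE.symm _ _⟩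

lemma BD.equiv {V : Type} {E : V → V → Prop} {n z d : ℕ} (h : BD z d E) (e : V ≃ Fin n) :
    BD z d (fun x y => E (e.symm x) (e.symm y)) := by
  obtain ⟨z', hz, σ, hσ⟩ := h
  have hr : ∀ x, x ∈ Set.range (fun i => e (σ i)) ↔ e.symm x ∈ Set.range σ := by
    intro x
    constructor
    · rintro ⟨i, rfl⟩
      exact ⟨i, by simp⟩
    · rintro ⟨i, hi⟩
      exact ⟨i, by show e (σ i) = x; rw [hi, e.apply_symm_apply]⟩
  refine ⟨z', hz, fun i => e (σ i), fun x hx => ?_⟩
  rintro ⟨g, hg, hg'⟩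
  refine hσ (e.symm x) (fun h => hx ((hr x).2 h)) ⟨fun i => e.symm (g i),
    e.symm.injective.comp hg, fun i => ⟨fun h => (hg' i).1 ((hr _).2 h), (hg' i).2⟩⟩

/-- The decomposition of the sizes. -/
theorem sizes_decomp {m : ℕ} {s : Fin m → ℕ} {P : ∀ i, Str 1 (Fin (s i))} (hP : MeetsStars P)
    {A : Set ℕ} (hA : SpectrumOmitting Kind.graph P A) :
    ∃ (z d u : ℕ) (Q : Finset ℕ → ∀ V : Type, Str 1 V → Prop), (∀ T, Def0 1 (Q T)) ∧
      A = ⋃ T ∈ (Finset.Icc 1 u).powerset,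
        {n | ∃ x ∈ bdSizes z d (Q T), ∃ k ∈ AddSubmonoid.closure (T : Set ℕ), n = x + k} := by
  classical
  obtain ⟨φ, hφ⟩ := hA
  obtain ⟨i₀, hi₀⟩ := hP
  obtain ⟨z, r, hz⟩ := bd_of_omit hi₀
  let Q₀ : ∀ V : Type, Str 1 V → Prop := fun V R => Omit Kind.graph P V R ∧ Models R φ
  have hQ₀ : Def0 1 Q₀ := (def_omit Kind.graph P).and (Def0.models φ)
  obtain ⟨q, hq⟩ := Inv.of_def hQ₀
  let t := max q r + 1
  obtain ⟨d, u, hdu⟩ := hz (t + 1)
  let Q : Finset ℕ → ∀ V : Type, Str 1 V → Prop := fun T V R => Q₀ V R ∧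
    ∀ s ∈ T, Av (R 0) r (t + 1) s
  have hQT : ∀ T, Def0 1 (Q T) := fun T =>
    hQ₀.and (Def.all_finset T fun s _ => def_av r (t + 1) s)
  refine ⟨z, d, u, Q, hQT, ?_⟩
  have hqt : q ≤ t := (le_max_left q r).trans (Nat.le_succ _)
  have hrt : r < t := Nat.lt_succ_of_le (le_max_right q r)
  ext n
  rw [hφ n]
  simp only [Set.mem_iUnion, Finset.mem_powerset, Set.mem_ofPred_eq]
  constructor
  · rintro ⟨hn, R, hR, hRP, hRφ⟩
    obtain ⟨W, hW, E', T', k, g, -, h2, h3, h4, h5, h6, h7, h8, h9⟩ := trim (r := r) (t := t + 1) (u := u)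
      (by omega) (by omega : q ≤ t + 1) hq n (Fin n) (R (0 : Fin 1)) ∅ (by simp) ⟨hR.1, hR.2⟩ (by
        have h1 : Q₀ (Fin n) R := ⟨⟨hR, hRP⟩, hRφ⟩
        rw [str_eq R] at h1
        exact h1) (fun s hs => hs.elim) (fun s hs => hs.elim)
    have hBD : BD z d E' := hdu W E' h4 (fun h => h5.1.2 i₀ h) h3
    have hfin : T' ⊆ (Finset.Icc 1 u : Finset ℕ) := fun s hs =>
      Finset.mem_coe.2 (Finset.mem_Icc.2 ⟨(h2 s hs).1, (h2 s hs).2.1⟩)
    obtain ⟨T, rfl⟩ : ∃ T : Finset ℕ, (T : Set ℕ) = T' :=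
      ⟨(Set.Finite.subset (Finset.finite_toSet _) hfin).toFinset, Set.Finite.coe_toFinset _⟩
    rw [Nat.card_fin] at h7
    have h1 : 1 ≤ Nat.card W := by
      by_contra h
      have hW0 : IsEmpty W := by
        have h0 : Nat.card W = 0 := by omega
        rcases Nat.card_eq_zero.1 h0 with h' | h'
        · exact h'
        · exact absurd hW (fun _ => h'.false)
      have hT0 : (T : Set ℕ) = ∅ := by
        ext s
        refine ⟨fun hs => ?_, fun hs => hs.elim⟩
        obtain ⟨hs1, _, r', _, σ, f, _⟩ := h2 s hs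
        exact hW0.elim (f 0 ⟨0, hs1⟩)
      rw [hT0] at h6
      have h60 : k = 0 := by simpa [Mon] using h6
      omega
    let e : W ≃ Fin (Nat.card W) := Finite.equivFin W
    obtain ⟨q', h10⟩ := Inv.of_def (hQT T)
    refine ⟨T, fun s hs => Finset.mem_coe.1 (hfin (Finset.mem_coe.2 hs)), Nat.card W, ⟨h1,
      fun _ x y => E' (e.symm x) (e.symm y), h4.equiv e, hBD.equiv e,
      (transport e h10).1 ⟨h5, fun s hs => (h2 s (Finset.mem_coe.2 hs)).2.2⟩⟩, k, h6, h7⟩
  · rintro ⟨T, hT, x, ⟨hx, R, hR, -, hQR, hAv⟩, k, hk, rfl⟩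
    obtain ⟨W, hW, E', h1, h2, h3⟩ := add_mon (r := r) (t := t) (q := q) (T := (T : Set ℕ)) hrt.le
      (by omega) hq hR (by rw [str_eq R] at hQR; exact hQR) (fun s hs => hAv s (Finset.mem_coe.1 hs)) hk
    rw [Nat.card_fin] at h3
    let e : W ≃ Fin (x + k) := Finite.equivFinOfCardEq h3
    have h4 := (transport e hq).1 h2
    exact ⟨by omega, _, h4.1.1, h4.1.2, h4.2⟩

end Pool.Agent.Helper29.EX
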