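import Pool.Agent.Helper29.EX.Final
import Pool.Agent.Helper74.EX.Main

/-!
# The spectra over the graphs which omit a forest of subdivided stars: final form
-/

set_option autoImplicit false

namespace Pool.Agent.Helper29.EX

open FirstOrder FirstOrder.Language Pool.Agent.Helper20.Spectra Pool.Agent.Helper20.OP
open Pool.Agent.Helper38.EX
open Pool.Agent.Helper20.EX (stars)

theorem bdBR : BdBR 3 2 := fun z d Q hQ => Pool.Agent.Helper74.EX.bd_BR z d Q hQ

/-- Every spectrum over such a class is the spectrum of a sentence of rank at most 3 with relations of arity at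
most 2. -/
theorem starBR {m : ℕ} {s : Fin m → ℕ} (P : ∀ i, Str 1 (Fin (s i)))
    (hP : ∃ i, Helper20.FS.Contains Helper20.FS.Kind.graph (P i) stars) {A : Set ℕ}
    (hA : Helper20.FS.SpectrumOmitting Helper20.FS.Kind.graph P A) : BR 3 2 A :=
  star_BR le_rfl le_rfl bdBR hP hA

theorem star_powSq {m : ℕ} {s : Fin m → ℕ} (P : ∀ i, Str 1 (Fin (s i)))
    (h : ∃ i, Helper20.FS.Contains Helper20.FS.Kind.graph (P i) stars) :
    ∃ c : ℕ, ∀ A : Set ℕ, Helper20.FS.SpectrumOmitting Helper20.FS.Kind.graph P A → PowSq c A :=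
  ⟨_, fun _ hA => (starBR P h hA).powSq⟩

end Pool.Agent.Helper29.EX
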