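import Pool.Agent.Helper29.EX.MonoWild
import Pool.Agent.Helper29.EX.StarBR
import Pool.Agent.Helper80.EX.Main
import Pool.Agent.Helper80.EX.DenseStars

/-!
# Spectra over definable classes of graphs closed under subgraphs
-/

set_option autoImplicit false

namespace Pool.Agent.Helper29.EX

open FirstOrder FirstOrder.Language Pool.Agent.Helper20.Spectra Pool.Agent.Helper20.OP Pool.Agent.Helper20.FS
open Pool.Agent.Helper20.EX (stars EdgeOf subdiv IsSubdiv HasSub SpectrumOver Monotone SomewhereDense)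
open Pool.Agent.Helper38.EX

variable {K : ∀ n : ℕ, Str 1 (Fin n) → Prop} {ψ : (binLang 1).Sentence}

/-- spectra over the class are spectra over the graphs which omit one pattern -/
lemma over_omitting (hK : DefBy K ψ) (hM : Monotone K) {n : ℕ} {P : Str 1 (Fin n)}
    (hP : Helper20.FS.Kind.graph.Is P) (hPK : ¬ K n P) {A : Set ℕ} (hA : SpectrumOver K A) :
    Helper20.FS.SpectrumOmitting Helper20.FS.Kind.graph (fun _ : Fin 1 => P) A := by
  obtain ⟨φ, hφ⟩ := hA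
  refine ⟨ψ ⊓ φ, fun k => (hφ k).trans ?_⟩
  have hinf : ∀ R : Str 1 (Fin k), Models R (ψ ⊓ φ) ↔ Models R ψ ∧ Models R φ := by
    intro R
    let _ := toStr R
    exact BoundedFormula.realize_inf
  constructor
  · rintro ⟨h1, R, hR, hRφ⟩
    have h2 := (hK k R).1 hR
    exact ⟨h1, R, h2.1, fun _ h => hPK (hM _ _ _ _ hR hP h), (hinf R).2 ⟨h2.2, hRφ⟩⟩
  · rintro ⟨h1, R, h2, _, h3⟩
    have h4 := (hinf R).1 h3
    exact ⟨h1, R, (hK k R).2 ⟨h2, h4.1⟩, h4.2⟩

lemma not_hasAll {W : Type} {S : Str 1 W} (h : ¬ HasAll S K) : ∃ (n : ℕ) (P : Str 1 (Fin n)),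
    Helper20.FS.Kind.graph.Is P ∧ Contains Helper20.FS.Kind.graph P S ∧ ¬ K n P := by
  by_contra hcon
  refine h fun n R hR hRS => ?_
  by_contra hKR
  exact hcon ⟨n, R, hR, hRS, hKR⟩

lemma over_iff (hK : DefBy K ψ) (A : Set ℕ) : SpectrumOver K A ↔ SpecOver (KV ψ) A := by
  constructor
  · rintro ⟨φ, h⟩
    refine ⟨φ, ?_⟩
    ext n
    rw [h]
    exact ⟨fun ⟨h1, R, h2, h3⟩ => ⟨h1, R, (hK _ _).1 h2, h3⟩,
      fun ⟨h1, R, h2, h3⟩ => ⟨h1, R, (hK _ _).2 h2, h3⟩⟩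
  · rintro ⟨φ, rfl⟩
    exact ⟨φ, fun n => ⟨fun ⟨h1, R, h2, h3⟩ => ⟨h1, R, (hK _ _).2 h2, h3⟩,
      fun ⟨h1, R, h2, h3⟩ => ⟨h1, R, (hK _ _).1 h2, h3⟩⟩⟩

/-- the tame case -/
theorem mono_tame (hK : DefBy K ψ) (hM : Monotone K) (hS : ¬ HasAll claws K) {A : Set ℕ}
    (hA : SpectrumOver K A) : UltPeriodic A := by
  obtain ⟨n, P, hP, hPS, hPK⟩ := not_hasAll hS
  exact (sets_final Helper20.FS.Kind.graph 1 (fun _ => n) (fun _ => P)).1 ⟨0, hPS⟩ A
    (over_omitting hK hM hP hPK hA)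

/-- the universal spectrum -/
theorem mono_universal (hK : DefBy K ψ) (hM : Monotone K) (hS : HasAll claws K) :
    (∃ U : Set ℕ, SpectrumOver K U ∧ ∀ A : Set ℕ, IsSpectrum A ↔
      ∃ h : Polynomial ℕ, A = {n : ℕ | 1 ≤ n ∧ h.eval n ∈ U}) ∧
    ((∀ A : Set ℕ, SpectrumOver K A → IsRudimentary A) ↔
      ∀ A : Set ℕ, IsSpectrum A ↔ (IsRudimentary A ∧ 0 ∉ A)) := by
  simp only [over_iff hK]
  exact mono_wild hK hM hS

/-- the nowhere dense case: bounded rank -/
theorem mono_BR (hK : DefBy K ψ) (hM : Monotone K) (hS : ¬ HasAll stars K) {A : Set ℕ}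
    (hA : SpectrumOver K A) : BR 3 2 A := by
  obtain ⟨n, P, hP, hPS, hPK⟩ := not_hasAll hS
  exact starBR (fun _ : Fin 1 => P) ⟨0, hPS⟩ (over_omitting hK hM hP hPK hA)

/-- somewhere dense classes -/
theorem mono_dense (hK : DefBy K ψ) (hM : Monotone K) : HasAll stars K ↔ SomewhereDense K := by
  constructor
  · intro hS
    obtain ⟨r, _, h⟩ := mono_hasSub hK hM hS
    refine ⟨r, fun n => ?_⟩
    let R : Str 1 (Fin n) := fun _ x y => x ≠ y
    let V := Fin n ⊕ EdgeOf R × Fin r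
    let e : V ≃ Fin (Nat.card V) := Finite.equivFin V
    have hG : IsSubdiv r R (fun _ x y => subdiv r R 0 (e.symm x) (e.symm y) : Str 1 (Fin (Nat.card V))) :=
      ⟨e.symm, fun _ _ => Iff.rfl⟩
    exact ⟨Nat.card V, _, h n _ R _ ⟨fun x hx => hx rfl, fun x y hxy => Ne.symm hxy⟩ hG, hG⟩
  · exact fun hD n R hR hRS => Pool.Agent.Helper80.EX.dense_stars hM hD R hR hRS

/-- all rudimentary sets -/
theorem mono_rud (hK : DefBy K ψ) (hM : Monotone K) (hS : HasAll stars K) {A : Set ℕ}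
    (hA : IsRudimentary A) (h0 : 0 ∉ A) : SpectrumOver K A := by
  obtain ⟨r, hr, h⟩ := mono_hasSub hK hM hS
  exact Pool.Agent.Helper80.EX.hasSub_rud hr h hA h0

lemma hasAll_claws_of_stars (hS : HasAll stars K) : HasAll claws K := by
  intro n R hR hRc
  refine hS n R hR ?_
  obtain ⟨f, hf, hfE⟩ := hRc
  let g : ℕ × Option (Fin 3 × ℕ) → ℕ × Option (ℕ × ℕ) := fun x =>
    (x.1, x.2.map fun p => ((p.1 : ℕ), p.2))
  have hg : Function.Injective g := by
    rintro ⟨a, u⟩ ⟨b, w⟩ h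
    simp only [g, Prod.mk.injEq] at h
    obtain ⟨rfl, h2⟩ := h
    have h3 : Function.Injective (fun p : Fin 3 × ℕ => ((p.1 : ℕ), p.2)) := by
      rintro ⟨i, j⟩ ⟨i', j'⟩ h
      simp only [Prod.mk.injEq] at h
      obtain ⟨h4, rfl⟩ := h
      rw [Fin.ext h4]
    rw [Option.map_injective h3 h2]
  have hst : ∀ u w : Option (Fin 3 × ℕ), clawStep u w → Helper20.EX.starStep
      (u.map fun p => ((p.1 : ℕ), p.2)) (w.map fun p => ((p.1 : ℕ), p.2)) := by
    rintro (_ | ⟨i, j⟩) (_ | ⟨i', j'⟩) h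
    · exact h
    · exact h
    · exact h
    · exact ⟨congrArg _ h.1, h.2⟩
  exact ⟨fun x => g (f x), hg.comp hf, fun x y hxy =>
    ⟨(hfE x y hxy).1, (hfE x y hxy).2.imp (hst _ _) (hst _ _)⟩⟩

/-- spectra over definable classes are spectra -/
lemma over_isSpectrum (hK : DefBy K ψ) {A : Set ℕ} (hA : SpectrumOver K A) : IsSpectrum A :=
  SpecOver.isSpectrum (def_kv ψ) ((over_iff hK A).1 hA)

/-- The spectra over a definable class closed under subgraphs are exactly the rudimentary sets of positive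
integers if and only if the class is somewhere dense and this holds for the spectra. -/
theorem mono_exact (hK : DefBy K ψ) (hM : Monotone K) :
    (∀ A : Set ℕ, SpectrumOver K A ↔ (IsRudimentary A ∧ 0 ∉ A)) ↔
      (SomewhereDense K ∧ ∀ A : Set ℕ, IsSpectrum A ↔ (IsRudimentary A ∧ 0 ∉ A)) := by
  rw [← mono_dense hK hM]
  constructor
  · intro H
    have hc : HasAll claws K := by
      by_contra hS
      exact sqs_not_per (mono_tame hK hM hS ((H sqs).2 ⟨sqs_rud, fun h0 => absurd h0.1 (by omega)⟩))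
    obtain ⟨hU, hQ⟩ := mono_universal hK hM hc
    refine ⟨?_, hQ.1 fun A hA => ((H A).1 hA).1⟩
    by_contra hS
    exact ne_rud_of_universal (C := SpectrumOver K) (fun A hA => (mono_BR hK hM hS hA).powSq) hU H
  · rintro ⟨hS, H⟩ A
    exact ⟨fun hA => (H A).1 (over_isSpectrum hK hA), fun hA => mono_rud hK hM hS hA.1 hA.2⟩

end Pool.Agent.Helper29.EX
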