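import Pool.Agent.Helper29.EX.Hier

/-!
# A spectrum which is not in `PowSq c`: the diagonal set
-/

set_option autoImplicit false

namespace Pool.Agent.Helper29.EX

open Pool.Agent.Helper20.Spectra Pool.Agent.Helper38.EX

section rud

variable {k : ℕ} {Θ : Finset (ℕ × ℕ × ℕ × ℕ)} {C : ℕ}

/-- one second-order variable of arity 4 -/
abbrev A4 : Unit → ℕ := fun _ => 4

lemma so4 {z x y c : (Fin k → ℕ) → ℕ} (hz : Helper20.Spectra.IsPoly k z) (hx : Helper20.Spectra.IsPoly k x) (hy : Helper20.Spectra.IsPoly k y)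
    (hc : Helper20.Spectra.IsPoly k c) : RudX A4 k (fun X v => X () ![z v, x v, y v, c v]) := by
  have h : ∀ j : Fin 4, Helper20.Spectra.IsPoly k ((![z, x, y, c] : Fin 4 → (Fin k → ℕ) → ℕ) j) := by
    intro j
    fin_cases j
    · exact hz
    · exact hx
    · exact hy
    · exact hc
  refine (RudX.so' (a := A4) () h).congr fun X v => Iff.of_eq (congrArg (X ()) ?_)
  funext j
  fin_cases j <;> rfl

lemma rud_tile {z M : (Fin k → ℕ) → ℕ} (hz : Helper20.Spectra.IsPoly k z) (hM : Helper20.Spectra.IsPoly k M) :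
    RudX A4 k (fun X v => TileOK Θ C (fun x y c => X () ![z v, x, y, c]) (M v)) := by
  have hM1 : Helper20.Spectra.IsPoly k (fun v => M v + 1) := hM.add (Helper20.Spectra.IsPoly.const 1)
  have x0 : ∀ {k : ℕ}, Helper20.Spectra.IsPoly (k + 1) (fun w => w 0) := Helper20.Spectra.IsPoly.var 0
  refine RudX.and' ?_ (RudX.and' ?_ ?_)
  · refine RudX.all hM1 (RudX.all hM1.tail (RudX.all (Helper20.Spectra.IsPoly.const C) (RudX.all (Helper20.Spectra.IsPoly.const C) ?_)))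
    exact (so4 hz.tail.tail.tail.tail x0.tail.tail.tail x0.tail.tail x0.tail).imp
      ((so4 hz.tail.tail.tail.tail x0.tail.tail.tail x0.tail.tail x0).imp (RudX.eq x0.tail x0))
  · refine RudX.all hM1 (RudX.all hM1.tail (RudX.all (Helper20.Spectra.IsPoly.const C) ?_))
    refine (so4 hz.tail.tail.tail x0.tail.tail x0.tail x0).imp
      ((RudX.not' (RudX.eq x0 (Helper20.Spectra.IsPoly.const 0))).iff ?_)
    exact ((RudX.le (Helper20.Spectra.IsPoly.const 1) x0.tail.tail).and' (RudX.le x0.tail.tail hM.tail.tail.tail)).and'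
      ((RudX.le (Helper20.Spectra.IsPoly.const 1) x0.tail).and' (RudX.le x0.tail hM.tail.tail.tail))
  · refine RudX.all hM (RudX.all hM.tail (RudX.ex_finset Θ fun w _ => ?_))
    exact (so4 hz.tail.tail x0.tail x0 (Helper20.Spectra.IsPoly.const _)).and'
      ((so4 hz.tail.tail (x0.tail.add (Helper20.Spectra.IsPoly.const 1)) x0 (Helper20.Spectra.IsPoly.const _)).and'
      ((so4 hz.tail.tail x0.tail (x0.add (Helper20.Spectra.IsPoly.const 1)) (Helper20.Spectra.IsPoly.const _)).and'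
      (so4 hz.tail.tail (x0.tail.add (Helper20.Spectra.IsPoly.const 1)) (x0.add (Helper20.Spectra.IsPoly.const 1)) (Helper20.Spectra.IsPoly.const _))))

lemma rud_flip {n M : (Fin k → ℕ) → ℕ} (hn : Helper20.Spectra.IsPoly k n) (hM : Helper20.Spectra.IsPoly k M) :
    RudX A4 k (fun X v => Flip C (fun z x y c => X () ![z, x, y, c]) (n v) (M v)) := by
  have hM1 : Helper20.Spectra.IsPoly k (fun v => M v + 1) := hM.add (Helper20.Spectra.IsPoly.const 1)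
  have x0 : ∀ {k : ℕ}, Helper20.Spectra.IsPoly (k + 1) (fun w => w 0) := Helper20.Spectra.IsPoly.var 0
  refine RudX.all hn (RudX.all hM1.tail (RudX.all hM1.tail.tail (RudX.all (Helper20.Spectra.IsPoly.const C)
    (RudX.ex hn.tail.tail.tail.tail (RudX.all hM1.tail.tail.tail.tail.tail
    (RudX.all hM1.tail.tail.tail.tail.tail.tail (RudX.all (Helper20.Spectra.IsPoly.const C) ?_)))))))
  refine (so4 x0.tail.tail.tail x0.tail.tail x0.tail x0).iff
    (((so4 x0.tail.tail.tail.tail.tail.tail.tail x0.tail.tail x0.tail x0).and' ?_).or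
      ((so4 x0.tail.tail.tail.tail.tail.tail.tail x0.tail.tail x0.tail x0).not'.and' ?_))
  · exact ((RudX.eq x0.tail.tail x0.tail.tail.tail.tail.tail.tail).and'
      ((RudX.eq x0.tail x0.tail.tail.tail.tail.tail).and' (RudX.eq x0 x0.tail.tail.tail.tail))).not'
  · exact (RudX.eq x0.tail.tail x0.tail.tail.tail.tail.tail.tail).and'
      ((RudX.eq x0.tail x0.tail.tail.tail.tail.tail).and' (RudX.eq x0 x0.tail.tail.tail.tail))

lemma rud_end {ι : Type} {a : ι → ℕ} {m u : (Fin k → ℕ) → ℕ} (hm : Helper20.Spectra.IsPoly k m) (hu : Helper20.Spectra.IsPoly k u) :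
    RudX a k (fun _ v => EndP (m v) (u v)) := by
  have x0 : ∀ {k : ℕ}, Helper20.Spectra.IsPoly (k + 1) (fun w => w 0) := Helper20.Spectra.IsPoly.var 0
  exact (RudX.le (Helper20.Spectra.IsPoly.const 1) hu).and' (RudX.all ((Helper20.Spectra.IsPoly.const 2).mul hm)
    ((RudX.le (Helper20.Spectra.IsPoly.const 1) x0).imp (RudX.ex hu.tail (RudX.eq hu.tail.tail (x0.tail.mul x0)))))

lemma poly_pr {t u : (Fin k → ℕ) → ℕ} (ht : Helper20.Spectra.IsPoly k t) (hu : Helper20.Spectra.IsPoly k u) :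
    Helper20.Spectra.IsPoly k (fun v => pr (t v) (u v)) :=
  (((ht.add hu).add (Helper20.Spectra.IsPoly.const 1)).pow 2).add ht

end rud

/-- the size of the array for the fixed set of blocks -/
def Mz (c k₀ t u : ℕ) : ℕ := ((pr t u ^ c + 2 + t) ^ 2 + t) ^ (k₀ + 1)

lemma poly_Mz {k : ℕ} (c k₀ : ℕ) {t u : (Fin k → ℕ) → ℕ} (ht : Helper20.Spectra.IsPoly k t) (hu : Helper20.Spectra.IsPoly k u) :
    Helper20.Spectra.IsPoly k (fun v => Mz c k₀ (t v) (u v)) :=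
  ((((((poly_pr ht hu).pow c).add (Helper20.Spectra.IsPoly.const 2)).add ht).pow 2).add ht).pow (k₀ + 1)

lemma Mz_pos (c k₀ t u : ℕ) : 1 ≤ Mz c k₀ t u := by
  refine Nat.one_le_pow _ _ ?_
  have : 1 ≤ (pr t u ^ c + 2 + t) ^ 2 := Nat.one_le_pow _ _ (by omega)
  omega

/-- the number of positions -/
def mm (c k₀ C t : ℕ) : ℕ := (Mz c k₀ t 0 + 2) ^ 2 * (C + 1)

/-- the diagonal set -/
def Dg (c k₀ C : ℕ) : Set ℕ := {n | ∃ t u, n = pr t u ∧
  ((¬ EndP (mm c k₀ C t) u ∧ pr t (u + 1) ^ c ∈ squareSizes (blk t)) ∨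
    (EndP (mm c k₀ C t) u ∧ pr t 0 ^ c ∉ squareSizes (blk t)))}

theorem dg_spectrum (c : ℕ) : ∃ k₀ C : ℕ, IsSpectrum (Dg c k₀ C) := by
  obtain ⟨k₀, Θ, hΘ⟩ := spectrum_blocks univSizes_spectrum
  obtain ⟨C, hC⟩ : ∃ C : ℕ, ∀ w ∈ Θ, w.1 ≤ C ∧ w.2.1 ≤ C ∧ w.2.2.1 ≤ C ∧ w.2.2.2 ≤ C := by
    refine ⟨Θ.sup (fun w => w.1 + w.2.1 + w.2.2.1 + w.2.2.2), fun w hw => ?_⟩
    have h1 : w.1 + w.2.1 + w.2.2.1 + w.2.2.2 ≤ Θ.sup (fun w => w.1 + w.2.1 + w.2.2.1 + w.2.2.2) :=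
      Finset.le_sup (f := fun w : ℕ × ℕ × ℕ × ℕ => w.1 + w.2.1 + w.2.2.1 + w.2.2.2) hw
    omega
  have hsq : ∀ t u, pr t u ^ c ∈ squareSizes (blk t) ↔ ∃ F, TileOK Θ C F (Mz c k₀ t u) := by
    intro t u
    have h1 : 1 ≤ (pr t u ^ c + 2 + t) ^ 2 + t := by
      have : 1 ≤ (pr t u ^ c + 2 + t) ^ 2 := Nat.one_le_pow _ _ (by omega)
      omega
    rw [← mem_univSizes, hΘ _ h1, ← tile_iff hC (Mz_pos c k₀ t u)]
    rfl
  refine ⟨k₀, C, ?_⟩
  have x0 : ∀ {k : ℕ}, Helper20.Spectra.IsPoly (k + 1) (fun w => w 0) := Helper20.Spectra.IsPoly.var 0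
  have hR : RudX A4 1 (fun X v => ∃ t, t ≤ v 0 ∧ ∃ u, u ≤ v 0 ∧ (v 0 = pr t u ∧
      ((¬ EndP (mm c k₀ C t) u ∧ TileOK Θ C (fun x y c => X () ![0, x, y, c]) (Mz c k₀ t (u + 1))) ∨
      (EndP (mm c k₀ C t) u ∧ (Flip C (fun z x y c => X () ![z, x, y, c]) (v 0) (Mz c k₀ t 0) ∧
        ∀ z, z ≤ v 0 → ¬ TileOK Θ C (fun x y c => X () ![z, x, y, c]) (Mz c k₀ t 0)))))) := by
    refine RudX.ex x0 (RudX.ex x0.tail ((RudX.eq x0.tail.tail (poly_pr x0.tail x0)).and' ?_))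
    have hm : Helper20.Spectra.IsPoly (1 + 1 + 1) (fun w => mm c k₀ C (Fin.tail w 0)) :=
      (((poly_Mz c k₀ x0.tail (Helper20.Spectra.IsPoly.const 0)).add (Helper20.Spectra.IsPoly.const 2)).pow 2).mul
        (Helper20.Spectra.IsPoly.const (C + 1))
    refine (((rud_end hm x0).not').and' (rud_tile (Helper20.Spectra.IsPoly.const 0)
      (poly_Mz c k₀ x0.tail (x0.add (Helper20.Spectra.IsPoly.const 1))))).or ((rud_end hm x0).and'
      ((rud_flip x0.tail.tail (poly_Mz c k₀ x0.tail (Helper20.Spectra.IsPoly.const 0))).and'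
      (RudX.all x0.tail.tail (rud_tile x0 (poly_Mz c k₀ x0.tail (Helper20.Spectra.IsPoly.const 0)).tail).not')))
  have h := hR.isSpectrum
  have e : Dg c k₀ C = {m : ℕ | 1 ≤ m ∧ ∃ X : SOA A4, (fun (X : SOA A4) (v : Fin 1 → ℕ) =>
      ∃ t, t ≤ v 0 ∧ ∃ u, u ≤ v 0 ∧ (v 0 = pr t u ∧
      ((¬ EndP (mm c k₀ C t) u ∧ TileOK Θ C (fun x y c => X () ![0, x, y, c]) (Mz c k₀ t (u + 1))) ∨
      (EndP (mm c k₀ C t) u ∧ (Flip C (fun z x y c => X () ![z, x, y, c]) (v 0) (Mz c k₀ t 0) ∧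
        ∀ z, z ≤ v 0 → ¬ TileOK Θ C (fun x y c => X () ![z, x, y, c]) (Mz c k₀ t 0)))))) X
          (fun _ => m)} := by
    ext n
    constructor
    · rintro ⟨t, u, rfl, h1 | h1⟩
      · obtain ⟨F, hF⟩ := (hsq t (u + 1)).1 h1.2
        exact ⟨pr_pos t u, fun _ w => F (w 1) (w 2) (w 3), t, (le_pr t u).1, u, (le_pr t u).2, rfl,
          Or.inl ⟨h1.1, hF⟩⟩
      · have hno : ¬ ∃ F, TileOK Θ C F (Mz c k₀ t 0) := fun h => h1.2 ((hsq t 0).2 h)
        have hm4 : 4 ≤ mm c k₀ C t := by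
          have h2 : 2 ^ 2 ≤ (Mz c k₀ t 0 + 2) ^ 2 := Nat.pow_le_pow_left (by omega) 2
          have h3 : (Mz c k₀ t 0 + 2) ^ 2 * 1 ≤ (Mz c k₀ t 0 + 2) ^ 2 * (C + 1) :=
            Nat.mul_le_mul_left _ (by omega)
          unfold mm
          omega
        have h2 := endP_le hm4 h1.1
        have h3 := (le_pr t u).2
        obtain ⟨G, hG⟩ := exists_flip C (n := pr t u) (M := Mz c k₀ t 0) (by
          have : (Mz c k₀ t 0 + 2) ^ 2 * (C + 1) = mm c k₀ C t := rfl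
          rw [this]
          omega)
        exact ⟨pr_pos t u, fun _ w => G (w 0) (w 1) (w 2) (w 3), t, (le_pr t u).1, u, (le_pr t u).2,
          rfl, Or.inr ⟨h1.1, hG, fun z _ h4 => hno ⟨_, h4⟩⟩⟩
    · rintro ⟨_, X, t, _, u, _, h0, h1 | h1⟩
      · exact ⟨t, u, h0, Or.inl ⟨h1.1, (hsq t (u + 1)).2 ⟨_, h1.2⟩⟩⟩
      · refine ⟨t, u, h0, Or.inr ⟨h1.1, fun h2 => ?_⟩⟩
        obtain ⟨F, hF⟩ := (hsq t 0).1 h2
        obtain ⟨z, hz, h3⟩ := flip_all h1.2.1 F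
        exact h1.2.2 z hz (hF.congr hC fun x hx y hy c hc => (h3 x hx y hy c hc).symm)
  rw [e]
  exact h

/-- For every `c` some spectrum is not in `PowSq c`. -/
theorem exists_spectrum_not_powSq (c : ℕ) : ∃ A : Set ℕ, IsSpectrum A ∧ ¬ PowSq c A := by
  obtain ⟨k₀, C, hD⟩ := dg_spectrum c
  refine ⟨_, hD, ?_⟩
  rintro ⟨Θ, hΘ⟩
  obtain ⟨t, rfl⟩ := exists_blk Θ
  have hmem : ∀ u, pr t u ∈ Dg c k₀ C ↔
      ((¬ EndP (mm c k₀ C t) u ∧ pr t (u + 1) ^ c ∈ squareSizes (blk t)) ∨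
        (EndP (mm c k₀ C t) u ∧ pr t 0 ^ c ∉ squareSizes (blk t))) := by
    intro u
    constructor
    · rintro ⟨t', u', he, h⟩
      obtain ⟨rfl, rfl⟩ := pr_inj he
      exact h
    · exact fun h => ⟨t, u, rfl, h⟩
  have h1 : ∀ u, ¬ EndP (mm c k₀ C t) u → (pr t u ∈ Dg c k₀ C ↔ pr t (u + 1) ∈ Dg c k₀ C) := by
    intro u hu
    rw [hΘ (pr t (u + 1)) (pr_pos _ _), hmem u]
    constructor
    · rintro (h | h)
      · exact h.2
      · exact absurd h.1 hu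
    · exact fun h => Or.inl ⟨hu, h⟩
  have h2 : ∀ u, EndP (mm c k₀ C t) u → (pr t u ∈ Dg c k₀ C ↔ ¬ pr t 0 ∈ Dg c k₀ C) := by
    intro u hu
    rw [hΘ (pr t 0) (pr_pos _ _), hmem u]
    constructor
    · rintro (h | h)
      · exact absurd hu h.1
      · exact h.2
    · exact fun h => Or.inr ⟨hu, h⟩
  classical
  have hex := endP_exists (mm c k₀ C t)
  have h3 : ∀ u, u ≤ Nat.find hex → (pr t 0 ∈ Dg c k₀ C ↔ pr t u ∈ Dg c k₀ C) := by
    intro u
    induction u with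
    | zero => exact fun _ => Iff.rfl
    | succ u ih =>
      intro hu
      exact (ih (by omega)).trans (h1 u (Nat.find_min hex (by omega)))
  have h4 := h3 _ le_rfl
  have h5 := h2 _ (Nat.find_spec hex)
  exact iff_not_self (h4.trans h5)

end Pool.Agent.Helper29.EX
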