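import Pool.Agent.Helper29.EX.MonoMain
import Pool.Agent.Helper29.EX.Hier2

/-!
# Nowhere dense classes: some spectrum is missing
-/

set_option autoImplicit false

namespace Pool.Agent.Helper29.EX

open FirstOrder FirstOrder.Language Pool.Agent.Helper20.Spectra Pool.Agent.Helper20.OP
open Pool.Agent.Helper20.EX (SpectrumOver Monotone SomewhereDense)
open Pool.Agent.Helper38.EX

/-- One spectrum is not the spectrum of a sentence of rank at most `r` and arity at most `a`. -/
theorem exists_not_BR (r a : ℕ) : ∃ A : Set ℕ, IsSpectrum A ∧ ¬ BR r a A := by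
  obtain ⟨A, hA, h⟩ := exists_spectrum_not_powSq (r + a + 1)
  exact ⟨A, hA, fun hB => h hB.powSq⟩

/-- One spectrum is not a spectrum over any definable class of graphs which is closed under subgraphs and not
somewhere dense. -/
theorem mono_ne_spectra : ∃ A : Set ℕ, IsSpectrum A ∧
    ∀ (K : ∀ n : ℕ, Str 1 (Fin n) → Prop) (ψ : (binLang 1).Sentence), DefBy K ψ → Monotone K →
      ¬ SomewhereDense K → ¬ SpectrumOver K A := by
  obtain ⟨A, hA, h⟩ := exists_not_BR 3 2
  exact ⟨A, hA, fun K ψ hK hM hS hKA => h (mono_BR hK hM (fun h => hS ((mono_dense hK hM).1 h)) hKA)⟩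

end Pool.Agent.Helper29.EX
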