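import Pool.Agent.Helper29.EX.Defs
import Mathlib.Data.Set.Card
import Mathlib.Combinatorics.Pigeonhole
import Mathlib.Logic.Relation

/-!
# Components and the pigeonhole principle
-/

set_option autoImplicit false

namespace Pool.Agent.Helper29.EX

open Pool.Agent.Helper20.OP

section comp

variable {V : Type} {E : V → V → Prop} {S : Set V}

/-- the component of `v` outside `S` -/
def Cmp (E : V → V → Prop) (S : Set V) (v : V) : Set V :=
  {w | Relation.ReflTransGen (fun x y => E x y ∧ y ∉ S) v w}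

lemma Cmp.self (v : V) : v ∈ Cmp E S v := Relation.ReflTransGen.refl

lemma Cmp.step {v x y : V} (h : x ∈ Cmp E S v) (hxy : E x y) (hy : y ∉ S) : y ∈ Cmp E S v :=
  Relation.ReflTransGen.tail h ⟨hxy, hy⟩

lemma Cmp.out {v x : V} (hv : v ∉ S) (h : x ∈ Cmp E S v) : x ∉ S := by
  rcases Relation.ReflTransGen.cases_tail h with rfl | ⟨y, _, hy⟩
  · exact hv
  · exact hy.2

lemma Cmp.trans {v x y : V} (h : x ∈ Cmp E S v) (h' : y ∈ Cmp E S x) : y ∈ Cmp E S v :=
  Relation.ReflTransGen.trans h h'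

lemma Cmp.symm (hE : Gr E) {v x : V} (hv : v ∉ S) (h : x ∈ Cmp E S v) : v ∈ Cmp E S x := by
  induction h with
  | refl => exact Cmp.self v
  | tail h1 h2 ih =>
    have h3 : _ ∉ S := Cmp.out hv h1
    exact Cmp.trans (Cmp.step (Cmp.self _) (hE.symm _ _ h2.1) h3) ih

lemma Cmp.eq (hE : Gr E) {v w x : V} (hv : v ∉ S) (hw : w ∉ S) (h : x ∈ Cmp E S v)
    (h' : x ∈ Cmp E S w) : Cmp E S v = Cmp E S w := by
  ext y
  constructor
  · exact fun hy => Cmp.trans h' (Cmp.trans (Cmp.symm hE hv h) hy)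
  · exact fun hy => Cmp.trans h (Cmp.trans (Cmp.symm hE hw h') hy)

/-- a set which is closed in the component is everything -/
lemma Cmp.con (hE : Gr E) {v : V} (hv : v ∉ S) {A : Set V} {a : V} (ha : a ∈ A)
    (ha' : a ∈ Cmp E S v) (hA : ∀ x ∈ A, x ∈ Cmp E S v → ∀ y ∈ Cmp E S v, E x y → y ∈ A) {b : V}
    (hb : b ∈ Cmp E S v) : b ∈ A := by
  have h1 : b ∈ Cmp E S a := Cmp.trans (Cmp.symm hE hv ha') hb
  have h2 : b ∈ Cmp E S v ∧ b ∈ A := by
    clear hb
    induction h1 with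
    | refl => exact ⟨ha', ha⟩
    | tail h3 h4 ih =>
      have h5 := Cmp.step ih.1 h4.1 h4.2
      exact ⟨h5, hA _ ih.2 ih.1 _ h5 h4.1⟩
  exact h2.2

end comp

/-- codes of pieces -/
abbrev Code (U s : ℕ) : Type :=
  Σ c : Fin (U + 1), (Fin c → Fin c → Prop) × (Fin c → Fin s → Prop)

instance (U s : ℕ) : Finite (Code U s) := by
  classical
  infer_instance

/-- `κ` is a code of the set `D` over `σ` -/
def HasCode {V : Type} (E : V → V → Prop) {U s s' : ℕ} (σ : Fin s' → V) (κ : Code U s) (D : Set V) :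
    Prop :=
  ∃ h : Fin κ.1 → V, Function.Injective h ∧ Set.range h = D ∧
    (∀ a b, E (h a) (h b) ↔ κ.2.1 a b) ∧ ∀ a (x : Fin s), (∃ hx : x.1 < s', E (h a) (σ ⟨x, hx⟩)) ↔ κ.2.2 a x

lemma exists_code {V : Type} [Finite V] (E : V → V → Prop) {U s s' : ℕ} (σ : Fin s' → V) (D : Set V)
    (hD : D.ncard ≤ U) : ∃ κ : Code U s, HasCode E σ κ D := by
  classical
  have h1 : Nat.card D = D.ncard := rfl
  let e : D ≃ Fin D.ncard := Finite.equivFinOfCardEq h1
  refine ⟨⟨⟨D.ncard, by omega⟩, (fun a b => E (e.symm a) (e.symm b),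
    fun a x => ∃ hx : x.1 < s', E (e.symm a) (σ ⟨x, hx⟩))⟩, fun a => e.symm a, ?_, ?_, ?_, ?_⟩
  · exact Subtype.val_injective.comp e.symm.injective
  · ext x
    constructor
    · rintro ⟨a, rfl⟩
      exact (e.symm a).2
    · intro hx
      exact ⟨e ⟨x, hx⟩, by simp⟩
  · exact fun a b => Iff.rfl
  · exact fun a x => Iff.rfl

/-- The pigeonhole principle. -/
theorem pigeon (t s U : ℕ) : ∃ M : ℕ, ∀ (V : Type) [Finite V] (E : V → V → Prop), Gr E →
    ∀ (S A : Set V), S.ncard ≤ s → (∀ w ∈ A, w ∉ S) → (∀ w ∈ A, (Cmp E S w).ncard ≤ U) →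
    (∀ c, 1 ≤ c → c ≤ U → ¬ ∃ f : Fin (t + 1) → Fin c → V, Cp E S (t + 1) c f) →
    {x | ∃ w ∈ A, x ∈ Cmp E S w}.ncard ≤ M := by
  classical
  refine ⟨t * Nat.card (Code U s) * U, fun V _ E hE S A hS hA hU hno => ?_⟩
  have := Fintype.ofFinite V
  have := Fintype.ofFinite (Code U s)
  have h1 : Nat.card S = S.ncard := rfl
  let e : S ≃ Fin S.ncard := Finite.equivFinOfCardEq h1
  let σ : Fin S.ncard → V := fun i => e.symm i
  have hσ : ∀ w ∈ S, ∃ i, w = σ i := fun w hw => ⟨e ⟨w, hw⟩, by simp [σ]⟩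
  let 𝒟 : Finset (Finset V) := Finset.univ.filter fun D => ∃ w ∈ A, Cmp E S w = (D : Set V)
  have h𝒟 : ∀ D, D ∈ 𝒟 ↔ ∃ w ∈ A, Cmp E S w = (D : Set V) := fun D => by simp [𝒟]
  have hcode : ∀ D, D ∈ 𝒟 → ∃ κ : Code U s, HasCode E σ κ (D : Set V) := by
    intro D hD
    obtain ⟨w, hw, hD⟩ := (h𝒟 D).1 hD
    exact exists_code E σ _ (hD ▸ hU w hw)
  let κ : Finset V → Code U s := fun D => if hD : D ∈ 𝒟 then (hcode D hD).choose else
    ⟨0, (fun _ _ => True, fun _ _ => True)⟩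
  have hκ : ∀ D, D ∈ 𝒟 → HasCode E σ (κ D) (D : Set V) := by
    intro D hD
    have : κ D = (hcode D hD).choose := dif_pos hD
    rw [this]
    exact (hcode D hD).choose_spec
  have hcard : 𝒟.card ≤ t * Nat.card (Code U s) := by
    by_contra hlt
    obtain ⟨y, -, hy⟩ := Finset.exists_lt_card_fiber_of_mul_lt_card_of_maps_to (s := 𝒟)
      (t := (Finset.univ : Finset (Code U s))) (f := κ) (n := t) (fun _ _ => Finset.mem_univ _) (by
        rw [Finset.card_univ, ← Nat.card_eq_fintype_card, mul_comm]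
        omega)
    have hemb : Nonempty (Fin (t + 1) ↪ {D // D ∈ 𝒟.filter fun D => κ D = y}) := by
      refine Function.Embedding.nonempty_of_card_le ?_
      rw [Fintype.card_fin, Fintype.card_coe]
      exact hy
    obtain ⟨g⟩ := hemb
    have hg : ∀ i, (g i).1 ∈ 𝒟 ∧ κ (g i).1 = y := fun i => Finset.mem_filter.1 (g i).2
    have h2 : ∀ i, HasCode E σ y ((g i).1 : Set V) := fun i => by
      have := hκ _ (hg i).1
      rwa [(hg i).2] at this
    choose f hf1 hf2 hf3 hf4 using h2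
    have h3 : ∀ i, ∃ w ∈ A, Cmp E S w = ((g i).1 : Set V) := fun i => (h𝒟 _).1 (hg i).1
    choose w hw hwD using h3
    have hmem : ∀ i a, f i a ∈ Cmp E S (w i) := fun i a => by
      rw [hwD, ← hf2 i]
      exact ⟨a, rfl⟩
    have hmem' : ∀ i x, x ∈ Cmp E S (w i) → ∃ a, x = f i a := fun i x hx => by
      rw [hwD, ← hf2 i] at hx
      obtain ⟨a, rfl⟩ := hx
      exact ⟨a, rfl⟩
    have hpos : 1 ≤ (y.1 : ℕ) := by
      obtain ⟨a, ha⟩ := hmem' 0 _ (Cmp.self (w 0))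
      have := a.2
      omega
    refine hno y.1 hpos (by have := y.1.2; omega) ⟨f, ?_, ?_, ?_, ?_, ?_, ?_⟩
    · intro i a j b hab
      have h4 : Cmp E S (w i) = Cmp E S (w j) := Cmp.eq hE (hA _ (hw i)) (hA _ (hw j)) (hmem i a)
        (by rw [hab]; exact hmem j b)
      rw [hwD, hwD] at h4
      have h5 : i = j := g.injective (Subtype.ext (Finset.coe_injective h4))
      subst h5
      exact ⟨rfl, hf1 i hab⟩
    · exact fun i a => Cmp.out (hA _ (hw i)) (hmem i a)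
    · intro i a x hx
      by_cases hxS : x ∈ S
      · exact Or.inl hxS
      · exact Or.inr (hmem' i x (Cmp.step (hmem i a) hx hxS))
    · exact fun i j a b => (hf3 i a b).trans (hf3 j a b).symm
    · intro i j a x hx
      obtain ⟨k, rfl⟩ := hσ x hx
      have h5 := (hf4 i a ⟨k, lt_of_lt_of_le k.2 hS⟩).trans (hf4 j a ⟨k, lt_of_lt_of_le k.2 hS⟩).symm
      constructor
      · intro h
        obtain ⟨hx, h6⟩ := h5.1 ⟨k.2, h⟩
        exact h6
      · intro h
        obtain ⟨hx, h6⟩ := h5.2 ⟨k.2, h⟩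
        exact h6
    · intro i B ⟨a, ha⟩ hB
      ext b
      refine ⟨fun _ => Set.mem_univ b, fun _ => ?_⟩
      have h5 := Cmp.con hE (hA _ (hw i)) (A := f i '' B) ⟨a, ha, rfl⟩ (hmem i a) (by
        rintro _ ⟨a, ha, rfl⟩ _ y hy hay
        obtain ⟨c, rfl⟩ := hmem' i y hy
        exact ⟨c, hB a ha c hay, rfl⟩) (hmem i b)
      obtain ⟨c, hc, hcb⟩ := h5
      rwa [hf1 i hcb] at hc
  have hsub : {x | ∃ w ∈ A, x ∈ Cmp E S w} ⊆ ((𝒟.biUnion id : Finset V) : Set V) := by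
    rintro x ⟨w, hw, hx⟩
    have h4 : (Cmp E S w).toFinset ∈ 𝒟 := (h𝒟 _).2 ⟨w, hw, by simp⟩
    simp only [Finset.coe_biUnion, Set.mem_iUnion]
    exact ⟨_, Finset.mem_coe.2 h4, by simpa using hx⟩
  calc {x | ∃ w ∈ A, x ∈ Cmp E S w}.ncard ≤ ((𝒟.biUnion id : Finset V) : Set V).ncard :=
        Set.ncard_le_ncard hsub (Set.toFinite _)
    _ = (𝒟.biUnion id).card := Set.ncard_coe_finset _
    _ ≤ 𝒟.card * U := Finset.card_biUnion_le_card_mul _ _ _ (fun D hD => by
        obtain ⟨w, hw, h⟩ := (h𝒟 D).1 hD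
        have := hU w hw
        rw [h, Set.ncard_coe_finset] at this
        exact this)
    _ ≤ t * Nat.card (Code U s) * U := Nat.mul_le_mul_right _ hcard

end Pool.Agent.Helper29.EX
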