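import Pool.Agent.Helper20.EX.Graphs

/-!
# Graphs without a forest of subdivided stars: definitions

`Cp E S m s f`: `m` copies `f i` of one connected piece with `s` elements, which are attached to `S` in the
same way. `Av`: there are such copies over a small set `S`. `BD`: bounded degree outside a small set.
-/

set_option autoImplicit false

namespace Pool.Agent.Helper29.EX

open Pool.Agent.Helper20.Spectra Pool.Agent.Helper20.OP Pool.Agent.Helper20.FS
open Pool.Agent.Helper20.EX (stars starStep)

/-- graphs -/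
structure Gr {V : Type} (E : V → V → Prop) : Prop where
  irr : ∀ x, ¬ E x x
  symm : ∀ x y, E x y → E y x

/-- `m` copies of one connected piece with `s` elements over `S` -/
structure Cp {V : Type} (E : V → V → Prop) (S : Set V) (m s : ℕ) (f : Fin m → Fin s → V) : Prop where
  inj : ∀ i a j b, f i a = f j b → i = j ∧ a = b
  out : ∀ i a, f i a ∉ S
  clo : ∀ i a w, E (f i a) w → w ∈ S ∨ ∃ b, w = f i b
  iso : ∀ i j a b, E (f i a) (f i b) ↔ E (f j a) (f j b)
  att : ∀ i j a, ∀ w ∈ S, (E (f i a) w ↔ E (f j a) w)
  con : ∀ (i : Fin m) (A : Set (Fin s)), A.Nonempty → (∀ a ∈ A, ∀ b, E (f i a) (f i b) → b ∈ A) →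
    A = Set.univ

/-- there are `t` copies of a piece with `s` elements over a set with at most `r` elements -/
def Av {V : Type} (E : V → V → Prop) (r t s : ℕ) : Prop :=
  ∃ (r' : ℕ) (_ : r' ≤ r) (σ : Fin r' → V) (f : Fin t → Fin s → V), Cp E (Set.range σ) t s f

/-- outside a set with at most `z` elements, all degrees are at most `d` -/
def BD {V : Type} (z d : ℕ) (E : V → V → Prop) : Prop :=
  ∃ (z' : ℕ) (_ : z' ≤ z) (σ : Fin z' → V), ∀ x, x ∉ Set.range σ →
    ¬ ∃ g : Fin (d + 1) → V, Function.Injective g ∧ ∀ i, g i ∉ Set.range σ ∧ E x (g i)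

/-- some `P i` is a subgraph of `stars` (its components are subdivided stars and paths) -/
def MeetsStars {m : ℕ} {s : Fin m → ℕ} (P : ∀ i, Str 1 (Fin (s i))) : Prop :=
  ∃ i, Contains Kind.graph (P i) stars

/-- the submonoid of `ℕ` generated by a set -/
abbrev Mon (T : Set ℕ) : AddSubmonoid ℕ := AddSubmonoid.closure T

end Pool.Agent.Helper29.EX
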