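import Pool.Agent.Helper29.EX.Rem

/-!
# Trimming: removal of all removable copies of bounded size
-/

set_option autoImplicit false

namespace Pool.Agent.Helper29.EX

open Pool.Agent.Helper20.OP

/-- conditions on graphs which are determined by the `q` round equivalence -/
def Inv (q : ℕ) (Q : ∀ V : Type, Str 1 V → Prop) : Prop :=
  ∀ (V W : Type) (R : Str 1 V) (S : Str 1 W) (a : Fin 0 → V) (c : Fin 0 → W), EFq q R S a c →
    (Q V R ↔ Q W S)

lemma Av.mono {V : Type} {E : V → V → Prop} {r t t' s : ℕ} (h : Av E r t s) (ht : t' ≤ t) :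
    Av E r t' s := by
  obtain ⟨r', hr, σ, f, hf⟩ := h
  exact ⟨r', hr, σ, _, hf.sel (Fin.castLE ht) (Fin.castLE_injective ht)⟩

lemma card_off {V : Type} [Finite V] {E : V → V → Prop} {S : Set V} {t μ : ℕ}
    {f : Fin (t + 1) → Fin μ → V} (hf : Cp E S (t + 1) μ f) :
    Nat.card V = Nat.card {x // off f x} + μ := by
  classical
  let h : {x // off f x} ⊕ Fin μ → V := Sum.elim Subtype.val (f 0)
  have hb : Function.Bijective h := by
    constructor
    · rintro (⟨x, hx⟩ | a) (⟨y, hy⟩ | b) hxy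
      · exact congrArg Sum.inl (Subtype.ext hxy)
      · exact absurd hxy (hx b)
      · exact absurd hxy.symm (hy a)
      · exact congrArg Sum.inr (hf.inj _ _ _ _ hxy).2
    · intro x
      by_cases hx : off f x
      · exact ⟨Sum.inl ⟨x, hx⟩, rfl⟩
      · have : ∃ b, x = f 0 b := by
          by_contra h
          exact hx fun b hb => h ⟨b, hb⟩
        obtain ⟨b, rfl⟩ := this
        exact ⟨Sum.inr b, rfl⟩
  rw [← Nat.card_congr (Equiv.ofBijective h hb), Nat.card_sum, Nat.card_fin]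

/-- Trimming. -/
theorem trim {r t u q : ℕ} (hrt : r < t) (hqt : q ≤ t) {Q : ∀ V : Type, Str 1 V → Prop}
    (hQ : Inv q Q) : ∀ (n : ℕ) (V : Type) [Finite V] (E : V → V → Prop) (T : Set ℕ), Nat.card V = n →
    Gr E → Q V (fun _ => E) → (∀ s ∈ T, 1 ≤ s ∧ s ≤ u ∧ Av E r t s) →
    (∀ s ∈ T, ∀ c, 1 ≤ c → c ≤ u → Av E r (t + 1) c → s ≤ c) →
    ∃ (W : Type) (_ : Finite W) (E' : W → W → Prop) (T' : Set ℕ) (k : ℕ) (g : W → V),
      T ⊆ T' ∧ (∀ s ∈ T', 1 ≤ s ∧ s ≤ u ∧ Av E' r t s) ∧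
      (∀ c, 1 ≤ c → c ≤ u → ¬ Av E' r (t + 1) c) ∧ Gr E' ∧ Q W (fun _ => E') ∧ k ∈ Mon T' ∧
      Nat.card V = Nat.card W + k ∧ Function.Injective g ∧ ∀ x y, E' x y ↔ E (g x) (g y) := by
  classical
  intro n
  induction n using Nat.strong_induction_on with
  | _ n ih =>
    intro V _ E T hn hE hQV hT hmin
    by_cases hc : ∃ c, 1 ≤ c ∧ c ≤ u ∧ Av E r (t + 1) c
    · let μ := Nat.find hc
      obtain ⟨hμ1, hμu, r', hr', σ, f, hf⟩ := Nat.find_spec hc
      have hAv : Av E r (t + 1) μ := (Nat.find_spec hc).2.2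
      have hmin' : ∀ c, 1 ≤ c → c ≤ u → Av E r (t + 1) c → μ ≤ c := fun c h1 h2 h3 =>
        Nat.find_min' hc ⟨h1, h2, h3⟩
      have hcard : Nat.card V = Nat.card {x // off f x} + μ := card_off hf
      have hE' : Gr (ind E (off f)) := hE.ind _
      have hQ' : Q {x // off f x} (fun _ => ind E (off f)) :=
        (hQ _ _ _ _ (fun i => i.elim0) _ (ef_drop hE hf q 0 (Subtype.val) 0 _ (by omega)
          Subtype.val_injective (fun x y => Iff.rfl)
          (fun y => ⟨fun ⟨x, hx⟩ b hb => x.2 b (hx.symm.trans hb), fun h => ⟨⟨y, h⟩, rfl⟩⟩))).2 hQV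
      obtain ⟨W, hW, E', T', k, g, h1, h2, h3, h4, h5, h6, h7, h8, h9⟩ := ih (Nat.card {x // off f x})
        (by omega) {x // off f x} (ind E (off f)) (insert μ T) rfl hE' hQ' (by
          rintro s (rfl | hs)
          · exact ⟨hμ1, hμu, av_rem hE (by omega) hr' hf le_rfl hμ1 (hAv.mono (by omega))⟩
          · exact ⟨(hT s hs).1, (hT s hs).2.1, av_rem hE (by omega) hr' hf
              (hmin s hs μ hμ1 hμu hAv) (hT s hs).1 (hT s hs).2.2⟩) (by
          have key : ∀ c, 1 ≤ c → c ≤ u → Av (ind E (off f)) r (t + 1) c → μ ≤ c := by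
            intro c hc1 hc2 hc3
            by_contra hlt
            exact hlt (hmin' c hc1 hc2 (av_up hE hrt hf (by omega) hc3))
          rintro s (rfl | hs) c hc1 hc2 hc3
          · exact key c hc1 hc2 hc3
          · exact (hmin s hs μ hμ1 hμu hAv).trans (key c hc1 hc2 hc3))
      refine ⟨W, hW, E', T', k + μ, fun x => (g x).1, fun s hs => h1 (Or.inr hs), h2, h3, h4, h5,
        add_mem h6 (AddSubmonoid.subset_closure (h1 (Or.inl rfl))), by omega,
        Subtype.val_injective.comp h8, fun x y => h9 x y⟩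
    · exact ⟨V, inferInstance, E, T, 0, id, subset_rfl, hT, fun c h1 h2 h3 => hc ⟨c, h1, h2, h3⟩, hE,
        hQV, zero_mem _, by omega, Function.injective_id, fun x y => Iff.rfl⟩

end Pool.Agent.Helper29.EX
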