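import Pool.Agent.Helper29.EX.Comp
import Pool.Agent.Helper29.EX.Trim

/-!
# The degrees in a trimmed graph without large stars
-/

set_option autoImplicit false

namespace Pool.Agent.Helper29.EX

open Pool.Agent.Helper20.OP

/-- there is a path with `ℓ` vertices which starts at `v` and avoids `S` -/
def Ray {V : Type} (E : V → V → Prop) (ℓ : ℕ) (S : Set V) (v : V) : Prop :=
  ∃ p : ℕ → V, p 0 = v ∧ (∀ i < ℓ, p i ∉ S) ∧ (∀ i < ℓ, ∀ j < ℓ, p i = p j → i = j) ∧
    ∀ i, i + 1 < ℓ → E (p i) (p (i + 1))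

lemma Ray.cons {V : Type} {E : V → V → Prop} {ℓ : ℕ} {S : Set V} {v w : V} (hv : v ∉ S)
    (h : Ray E ℓ (insert v S) w) (hvw : E v w) : Ray E (ℓ + 1) S v := by
  obtain ⟨p, hp0, h1, h2, h3⟩ := h
  refine ⟨fun i => Nat.casesOn i v p, rfl, ?_, ?_, ?_⟩
  · intro i hi
    rcases i with _ | i
    · exact hv
    · exact fun hS => h1 i (by omega) (Or.inr hS)
  · intro i hi j hj hij
    rcases i with _ | i <;> rcases j with _ | j
    · rfl
    · exact absurd (Or.inl hij.symm) (h1 j (by omega))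
    · exact absurd (Or.inl hij) (h1 i (by omega))
    · exact congrArg _ (h2 i (by omega) j (by omega) hij)
  · intro i hi
    rcases i with _ | i
    · show E v (p 0)
      rwa [hp0]
    · exact h3 i (by omega)

lemma Av.of_ncard {V : Type} [Finite V] {E : V → V → Prop} {S : Set V} {r t c : ℕ} (hS : S.ncard ≤ r)
    {f : Fin t → Fin c → V} (hf : Cp E S t c f) : Av E r t c := by
  have h1 : Nat.card S = S.ncard := rfl
  let e : S ≃ Fin S.ncard := Finite.equivFinOfCardEq h1
  refine ⟨S.ncard, hS, fun i => e.symm i, f, ?_⟩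
  have : Set.range (fun i => (e.symm i : V)) = S := by
    ext x
    constructor
    · rintro ⟨i, rfl⟩
      exact (e.symm i).2
    · exact fun hx => ⟨e ⟨x, hx⟩, by simp⟩
  rwa [this]

/-- Small components. -/
theorem comp_small (t : ℕ) : ∀ ℓ s : ℕ, ∃ U : ℕ, ∀ (r : ℕ) (V : Type) [Finite V] (E : V → V → Prop),
    Gr E → ∀ (S : Set V) (v : V), S.ncard ≤ s → v ∉ S → s + ℓ ≤ r →
    (∀ c, 1 ≤ c → c ≤ U → ¬ Av E r (t + 1) c) → ¬ Ray E ℓ S v → (Cmp E S v).ncard ≤ U := by
  intro ℓ
  induction ℓ with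
  | zero =>
    exact fun s => ⟨0, fun r V _ E hE S v hS hv hr hA hR => absurd ⟨fun _ => v, rfl,
      fun i hi => absurd hi (by omega), fun i hi => absurd hi (by omega),
      fun i hi => absurd hi (by omega)⟩ hR⟩
  | succ ℓ ih =>
    intro s
    obtain ⟨U, hU⟩ := ih (s + 1)
    obtain ⟨M, hM⟩ := pigeon t (s + 1) U
    refine ⟨max U (M + 1), fun r V _ E hE S v hS hv hr hA hR => ?_⟩
    have hS' : (insert v S).ncard ≤ s + 1 := (Set.ncard_insert_le v S).trans (by omega)
    have hM' := hM V E hE (insert v S) {w | E v w ∧ w ∉ insert v S} hS' (fun w hw => hw.2) (by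
      intro w hw
      refine hU r V E hE _ w hS' hw.2 (by omega) (fun c h1 h2 => hA c h1 (h2.trans (le_max_left _ _)))
        fun h => hR (Ray.cons hv h hw.1)) (by
      rintro c h1 h2 ⟨f, hf⟩
      exact hA c h1 (h2.trans (le_max_left _ _)) (Av.of_ncard (by omega) hf))
    have hsub : Cmp E S v ⊆ insert v {x | ∃ w ∈ {w | E v w ∧ w ∉ insert v S}, x ∈ Cmp E (insert v S) w} := by
      intro x hx
      induction hx with
      | refl => exact Or.inl rfl
      | @tail y z h1 h2 ih =>
        by_cases hz : z = v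
        · exact Or.inl hz
        · have hz' : z ∉ insert v S := by
            rintro (h | h)
            · exact hz h
            · exact h2.2 h
          rcases ih with rfl | ⟨w, hw, hy⟩
          · exact Or.inr ⟨z, ⟨h2.1, hz'⟩, Cmp.self z⟩
          · exact Or.inr ⟨w, hw, Cmp.step hy h2.1 hz'⟩
    calc (Cmp E S v).ncard ≤ _ := Set.ncard_le_ncard hsub (Set.toFinite _)
      _ ≤ _ + 1 := Set.ncard_insert_le _ _
      _ ≤ max U (M + 1) := by
        have := le_max_right U (M + 1)
        omega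

/-- `D` disjoint paths with `ℓ` vertices which start at neighbours of `v` and avoid `S` and `v` -/
structure Fan {V : Type} (E : V → V → Prop) (D ℓ : ℕ) (S : Set V) (v : V) (h : ℕ → ℕ → V) : Prop where
  out : ∀ j < D, ∀ i < ℓ, h j i ∉ S ∧ h j i ≠ v
  inj : ∀ j < D, ∀ i < ℓ, ∀ j' < D, ∀ i' < ℓ, h j i = h j' i' → j = j' ∧ i = i'
  nb : ∀ j < D, E v (h j 0)
  st : ∀ j < D, ∀ i, i + 1 < ℓ → E (h j i) (h j (i + 1))

/-- the set of the elements of a fan -/
def fanSet {V : Type} (D ℓ : ℕ) (h : ℕ → ℕ → V) : Set V :=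
  Set.range fun p : Fin D × Fin ℓ => h p.1 p.2

lemma fanSet_ncard {V : Type} (D ℓ : ℕ) (h : ℕ → ℕ → V) : (fanSet D ℓ h).ncard ≤ D * ℓ := by
  have := Set.ncard_image_le (f := fun p : Fin D × Fin ℓ => h p.1 p.2) (s := Set.univ) (Set.toFinite _)
  rw [Set.image_univ, Set.ncard_univ, Nat.card_prod, Nat.card_fin, Nat.card_fin] at this
  exact this

/-- a maximal fan -/
lemma max_fan {V : Type} (E : V → V → Prop) (ℓ : ℕ) (S : Set V) (v : V) : ∀ D : ℕ,
    (∃ h, Fan E D ℓ S v h) ∨ ∃ W : Set V, W.ncard ≤ D * ℓ ∧ ∀ w, E v w → w ∉ insert v (S ∪ W) →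
      ¬ Ray E ℓ (insert v (S ∪ W)) w := by
  intro D
  induction D with
  | zero =>
    exact Or.inl ⟨fun _ _ => v, fun j hj => absurd hj (by omega), fun j hj => absurd hj (by omega),
      fun j hj => absurd hj (by omega), fun j hj => absurd hj (by omega)⟩
  | succ D ih =>
    rcases ih with ⟨h, hh⟩ | ⟨W, hW, hW'⟩
    · by_cases hR : ∃ w, E v w ∧ w ∉ insert v (S ∪ fanSet D ℓ h) ∧
        Ray E ℓ (insert v (S ∪ fanSet D ℓ h)) w
      · left
        obtain ⟨w, hvw, hw, p, hp0, h1, h2, h3⟩ := hR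
        have hp : ∀ i < ℓ, p i ∉ S ∧ p i ≠ v ∧ ∀ j < D, ∀ i' < ℓ, p i ≠ h j i' := by
          intro i hi
          have := h1 i hi
          refine ⟨fun hS => this (Or.inr (Or.inl hS)), fun hS => this (Or.inl hS), fun j hj i' hi' hS =>
            this (Or.inr (Or.inr ⟨(⟨j, hj⟩, ⟨i', hi'⟩), hS.symm⟩))⟩
        refine ⟨fun j i => if j < D then h j i else p i, ?_, ?_, ?_, ?_⟩
        · intro j hj i hi
          by_cases hjD : j < D
          · simp only [hjD, if_true]
            exact hh.out j hjD i hi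
          · simp only [hjD, if_false]
            exact ⟨(hp i hi).1, (hp i hi).2.1⟩
        · intro j hj i hi j' hj' i' hi' he
          by_cases hjD : j < D <;> by_cases hjD' : j' < D
          · simp only [hjD, hjD', if_true] at he
            exact hh.inj j hjD i hi j' hjD' i' hi' he
          · simp only [hjD, hjD', if_true, if_false] at he
            exact absurd he.symm ((hp i' hi').2.2 j hjD i hi)
          · simp only [hjD, hjD', if_true, if_false] at he
            exact absurd he ((hp i hi).2.2 j' hjD' i' hi')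
          · simp only [hjD, hjD', if_false] at he
            exact ⟨by omega, h2 i hi i' hi' he⟩
        · intro j hj
          by_cases hjD : j < D
          · simp only [hjD, if_true]
            exact hh.nb j hjD
          · simp only [hjD, if_false]
            rwa [hp0]
        · intro j hj i hi
          by_cases hjD : j < D
          · simp only [hjD, if_true]
            exact hh.st j hjD i hi
          · simp only [hjD, if_false]
            exact h3 i hi
      · right
        refine ⟨fanSet D ℓ h, (fanSet_ncard D ℓ h).trans (Nat.mul_le_mul_right _ (by omega)),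
          fun w h1 h2 h3 => hR ⟨w, h1, h2, h3⟩⟩
    · exact Or.inr ⟨W, hW.trans (Nat.mul_le_mul_right _ (by omega)), hW'⟩

/-- The degrees. -/
theorem deg (t D ℓ z : ℕ) : ∃ d u : ℕ, ∀ (r : ℕ) (V : Type) [Finite V] (E : V → V → Prop),
    Gr E → ∀ (Z : Set V) (v : V), Z.ncard ≤ z → v ∉ Z → z + D * ℓ + 1 + ℓ ≤ r →
    (∀ c, 1 ≤ c → c ≤ u → ¬ Av E r (t + 1) c) → (¬ ∃ h, Fan E D ℓ Z v h) →
    {w | E v w ∧ w ∉ Z}.ncard ≤ d := by
  obtain ⟨U, hU⟩ := comp_small t ℓ (z + D * ℓ + 1)
  obtain ⟨M, hM⟩ := pigeon t (z + D * ℓ + 1) U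
  refine ⟨D * ℓ + M, U, fun r V _ E hE Z v hZ hv hr hA hF => ?_⟩
  obtain ⟨W, hW, hW'⟩ := (max_fan E ℓ Z v D).resolve_left hF
  have hS : (insert v (Z ∪ W)).ncard ≤ z + D * ℓ + 1 := by
    have h1 := Set.ncard_insert_le v (Z ∪ W)
    have h2 := Set.ncard_union_le Z W
    omega
  have hM' := hM V E hE (insert v (Z ∪ W)) {w | E v w ∧ w ∉ insert v (Z ∪ W)} hS
    (fun w hw => hw.2) (fun w hw => hU r V E hE _ w hS hw.2 hr hA (hW' w hw.1 hw.2)) (by
      rintro c h1 h2 ⟨f, hf⟩
      exact hA c h1 h2 (Av.of_ncard (by omega) hf))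
  have hsub : {w | E v w ∧ w ∉ Z} ⊆ W ∪ {x | ∃ w ∈ {w | E v w ∧ w ∉ insert v (Z ∪ W)},
      x ∈ Cmp E (insert v (Z ∪ W)) w} := by
    rintro w ⟨h1, h2⟩
    by_cases hw : w ∈ W
    · exact Or.inl hw
    · refine Or.inr ⟨w, ⟨h1, ?_⟩, Cmp.self w⟩
      rintro (h | h | h)
      · exact hE.irr v (by rwa [h] at h1)
      · exact h2 h
      · exact hw h
  calc {w | E v w ∧ w ∉ Z}.ncard ≤ _ := Set.ncard_le_ncard hsub (Set.toFinite _)
    _ ≤ _ := Set.ncard_union_le _ _
    _ ≤ D * ℓ + M := by omega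

/-- `k` disjoint stars -/
structure Stars {V : Type} (E : V → V → Prop) (k D ℓ : ℕ) (c : ℕ → V) (h : ℕ → ℕ → ℕ → V) : Prop where
  fan : ∀ a < k, Fan E D ℓ ∅ (c a) (h a)
  cc : ∀ a < k, ∀ b < k, c a = c b → a = b
  ch : ∀ a < k, ∀ b < k, ∀ j < D, ∀ i < ℓ, c a ≠ h b j i
  hh : ∀ a < k, ∀ b < k, ∀ j < D, ∀ i < ℓ, ∀ j' < D, ∀ i' < ℓ, h a j i = h b j' i' → a = b

/-- Packing of stars. -/
theorem packing {V : Type} (E : V → V → Prop) (D ℓ : ℕ) : ∀ k : ℕ,
    (∃ c h, Stars E k D ℓ c h) ∨ ∃ Z : Set V, Z.ncard ≤ k * (D * ℓ + 1) ∧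
      ∀ v ∉ Z, ¬ ∃ h, Fan E D ℓ Z v h := by
  intro k
  induction k with
  | zero =>
    by_cases hV : Nonempty V
    · obtain ⟨v⟩ := hV
      exact Or.inl ⟨fun _ => v, fun _ _ _ => v, fun a ha => absurd ha (by omega),
        fun a ha => absurd ha (by omega), fun a ha => absurd ha (by omega),
        fun a ha => absurd ha (by omega)⟩
    · exact Or.inr ⟨∅, by simp, fun v => absurd ⟨v⟩ hV⟩
  | succ k ih =>
    rcases ih with ⟨c, h, hs⟩ | ⟨Z, hZ, hZ'⟩
    · let Z : Set V := ⋃ a : Fin k, insert (c a) (fanSet D ℓ (h a))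
      have hZc : Z.ncard ≤ k * (D * ℓ + 1) := by
        have h1 : ∀ a : Fin k, (insert (c a) (fanSet D ℓ (h a))).ncard ≤ D * ℓ + 1 := fun a =>
          (Set.ncard_insert_le _ _).trans (Nat.add_le_add_right (fanSet_ncard _ _ _) 1)
        have h2 := Set.ncard_iUnion_le_of_fintype (fun a : Fin k => insert (c a) (fanSet D ℓ (h a)))
        calc Z.ncard ≤ _ := h2
          _ ≤ ∑ a : Fin k, (D * ℓ + 1) := Finset.sum_le_sum fun a _ => h1 a
          _ = k * (D * ℓ + 1) := by simp
      have hcZ : ∀ a < k, c a ∈ Z := fun a ha => Set.mem_iUnion.2 ⟨⟨a, ha⟩, Or.inl rfl⟩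
      have hhZ : ∀ a < k, ∀ j < D, ∀ i < ℓ, h a j i ∈ Z := fun a ha j hj i hi =>
        Set.mem_iUnion.2 ⟨⟨a, ha⟩, Or.inr ⟨(⟨j, hj⟩, ⟨i, hi⟩), rfl⟩⟩
      by_cases hF : ∃ v, v ∉ Z ∧ ∃ g, Fan E D ℓ Z v g
      · left
        obtain ⟨v, hv, g, hg⟩ := hF
        refine ⟨fun a => if a < k then c a else v, fun a => if a < k then h a else g, ?_, ?_, ?_, ?_⟩
        · intro a ha
          by_cases hak : a < k
          · simp only [hak, if_true]
            exact hs.fan a hak
          · simp only [hak, if_false]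
            exact ⟨fun j hj i hi => ⟨fun h => h, (hg.out j hj i hi).2⟩, hg.inj, hg.nb, hg.st⟩
        · intro a ha b hb he
          by_cases hak : a < k <;> by_cases hbk : b < k
          · simp only [hak, hbk, if_true] at he
            exact hs.cc a hak b hbk he
          · simp only [hak, hbk, if_true, if_false] at he
            exact absurd (he ▸ hcZ a hak) hv
          · simp only [hak, hbk, if_true, if_false] at he
            exact absurd (he ▸ hcZ b hbk) hv
          · omega
        · intro a ha b hb j hj i hi he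
          by_cases hak : a < k <;> by_cases hbk : b < k
          · simp only [hak, hbk, if_true] at he
            exact hs.ch a hak b hbk j hj i hi he
          · simp only [hak, hbk, if_true, if_false] at he
            exact (hg.out j hj i hi).1 (he ▸ hcZ a hak)
          · simp only [hak, hbk, if_true, if_false] at he
            exact hv (he ▸ hhZ b hbk j hj i hi)
          · simp only [hak, hbk, if_false] at he
            exact (hg.out j hj i hi).2 he.symm
        · intro a ha b hb j hj i hi j' hj' i' hi' he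
          by_cases hak : a < k <;> by_cases hbk : b < k
          · simp only [hak, hbk, if_true] at he
            exact hs.hh a hak b hbk j hj i hi j' hj' i' hi' he
          · simp only [hak, hbk, if_true, if_false] at he
            exact absurd (he ▸ hhZ a hak j hj i hi) (hg.out j' hj' i' hi').1
          · simp only [hak, hbk, if_true, if_false] at he
            exact absurd (he ▸ hhZ b hbk j' hj' i' hi') (hg.out j hj i hi).1
          · omega
      · right
        refine ⟨Z, hZc.trans (Nat.mul_le_mul_right _ (by omega)), fun v hv h => hF ⟨v, hv, h⟩⟩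
    · exact Or.inr ⟨Z, hZ.trans (Nat.mul_le_mul_right _ (by omega)), hZ'⟩

end Pool.Agent.Helper29.EX
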