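import Pool.Agent.Helper29.EX.Swap
import Pool.Agent.Helper20.OP.EF

/-!
# Removal of one of many copies is not noticed
-/

set_option autoImplicit false

namespace Pool.Agent.Helper29.EX

open Pool.Agent.Helper20.OP

variable {V W : Type} {E : V → V → Prop} {F : W → W → Prop} {S : Set V} {m s : ℕ}
  {f : Fin m → Fin s → V}

/-- A copy which is different from `j` and contains none of the `r` given elements. -/
lemma exists_free (hf : Cp E S m s f) (j : Fin m) {r : ℕ} (hr : r + 1 < m) (c : Fin r → V) :
    ∃ k, k ≠ j ∧ ∀ i b, c i ≠ f k b := by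
  classical
  let h : Option (Fin r) → Fin m := fun o => o.elim j fun i =>
    if hi : ∃ k b, c i = f k b then hi.choose else j
  have hns : ¬ Function.Surjective h := by
    intro hs
    have := Fintype.card_le_of_surjective h hs
    simp at this
    omega
  obtain ⟨k, hk⟩ := not_forall.1 hns
  refine ⟨k, fun e => hk ⟨none, e.symm⟩, fun i b hb => hk ⟨some i, ?_⟩⟩
  have hi : ∃ k b, c i = f k b := ⟨k, b, hb⟩
  show (if hi : ∃ k b, c i = f k b then hi.choose else j) = k
  rw [dif_pos hi]
  obtain ⟨b', hb'⟩ := hi.choose_spec
  exact (hf.inj _ _ _ _ (hb'.symm.trans hb)).1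

/-- If `F` is `E` without the copy `j`, then `F` and `E` cannot be distinguished. -/
theorem ef_drop (hE : Gr E) (hf : Cp E S m s f) (q : ℕ) : ∀ (r : ℕ) (g : W → V) (j : Fin m)
    (a : Fin r → W), q + r < m → Function.Injective g → (∀ x y, F x y ↔ E (g x) (g y)) →
    (∀ y, (∃ x, y = g x) ↔ ∀ b, y ≠ f j b) →
    EFq q (fun _ : Fin 1 => F) (fun _ => E) a (fun i => g (a i)) := by
  have at0 : ∀ (r : ℕ) (g : W → V) (a : Fin r → W), Function.Injective g →
      (∀ x y, F x y ↔ E (g x) (g y)) →
      AtEq (fun _ : Fin 1 => F) (fun _ => E) a (fun i => g (a i)) := fun r g a hg he =>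
    ⟨fun i j => ⟨fun h => congrArg g h, fun h => hg h⟩, fun _ i j => he _ _⟩
  have sn : ∀ (r : ℕ) (g : W → V) (a : Fin r → W) (x : W),
      (Fin.snoc (fun i => g (a i)) (g x) : Fin (r + 1) → V) =
        fun i => g ((Fin.snoc a x : Fin (r + 1) → W) i) := by
    intro r g a x
    funext i
    refine Fin.lastCases ?_ (fun i => ?_) i
    · rw [Fin.snoc_last, Fin.snoc_last]
    · rw [Fin.snoc_castSucc, Fin.snoc_castSucc]
  induction q with
  | zero => exact fun r g j a _ hg he _ => at0 r g a hg he
  | succ q ih =>
    intro r g j a hr hg he hi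
    refine ⟨at0 r g a hg he, fun x => ⟨g x, ?_⟩, fun y => ?_⟩
    · rw [sn]
      exact ih (r + 1) g j _ (by omega) hg he hi
    · by_cases hy : ∃ x, y = g x
      · obtain ⟨x, rfl⟩ := hy
        refine ⟨x, ?_⟩
        rw [sn]
        exact ih (r + 1) g j _ (by omega) hg he hi
      · obtain ⟨k, hkj, hk⟩ := exists_free hf j (by omega : r + 1 < m) (fun i => g (a i))
        have hy' : ∃ b, y = f j b := by
          by_contra h
          exact hy ((hi y).2 fun b hb => h ⟨b, hb⟩)
        obtain ⟨b, rfl⟩ := hy'
        let g' : W → V := fun x => swp f j k (g x)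
        have hg' : Function.Injective g' := (swp_inj hf j k).comp hg
        have he' : ∀ x y, F x y ↔ E (g' x) (g' y) := fun x y =>
          (he x y).trans (swp_aut hE hf j k _ _).symm
        have hi' : ∀ y, (∃ x, y = g' x) ↔ ∀ b, y ≠ f k b := by
          intro y
          constructor
          · rintro ⟨x, rfl⟩ b hb
            have h1 : g x = f j b := by
              have := congrArg (swp f j k) hb
              rwa [swp_swp hf, swp_right hf] at this
            exact (hi _).1 ⟨x, rfl⟩ b h1
          · intro h
            obtain ⟨x, hx⟩ := (hi (swp f j k y)).2 fun b hb => by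
              have := congrArg (swp f j k) hb
              rw [swp_swp hf, swp_left hf] at this
              exact h b this
            refine ⟨x, ?_⟩
            show y = swp f j k (g x)
            rw [← hx, swp_swp hf]
        have ha : (fun i => g (a i)) = fun i => g' (a i) := by
          funext i
          exact (swp_other f (fun b => (hi _).1 ⟨a i, rfl⟩ b) (fun b => hk i b)).symm
        obtain ⟨x, hx⟩ := (hi' (f j b)).2 fun c hc => hkj (hf.inj _ _ _ _ hc).1.symm
        refine ⟨x, ?_⟩
        rw [ha, hx, sn]
        exact ih (r + 1) g' k _ (by omega) hg' he' hi'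

end Pool.Agent.Helper29.EX
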