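import Pool.Agent.Helper29.EX.Sizes
import Pool.Agent.Helper38.EX.BRadd
import Pool.Agent.Helper38.EX.BR
import Pool.Agent.Helper20.FS.Main

/-!
# The spectra over the graphs which omit a forest of subdivided stars
-/

set_option autoImplicit false

namespace Pool.Agent.Helper29.EX

open FirstOrder FirstOrder.Language Pool.Agent.Helper20.Spectra Pool.Agent.Helper20.OP Pool.Agent.Helper20.FS
open Pool.Agent.Helper38.EX

/-- The statement about the graphs of bounded degree (outside a small set). -/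
def BdBR (r a : ℕ) : Prop :=
  ∀ (z d : ℕ) (Q : ∀ V : Type, Str 1 V → Prop), Def0 1 Q → BR r a (bdSizes z d Q)

/-- Every spectrum over such a class has bounded rank and arity. -/
theorem star_BR {r a : ℕ} (hr : 3 ≤ r) (ha : 2 ≤ a) (h : BdBR r a) {m : ℕ} {s : Fin m → ℕ}
    {P : ∀ i, Str 1 (Fin (s i))} (hP : MeetsStars P) {A : Set ℕ}
    (hA : SpectrumOmitting Kind.graph P A) : BR r a A := by
  obtain ⟨z, d, u, Q, hQ, rfl⟩ := sizes_decomp hP hA
  refine BR.biUnion _ fun T hT => BR.add_closure (h z d (Q T) (hQ T)) hr ha fun s hs => ?_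
  have := Finset.mem_Icc.1 (Finset.mem_powerset.1 hT hs)
  omega

/-- the set of the positive squares -/
def sqs : Set ℕ := {n | 1 ≤ n ∧ ∃ s, s ≤ n ∧ n = s ^ 2}

lemma sqs_rud : IsRudimentary sqs := by
  apply isRudimentary_of
  have x0 : Helper20.Spectra.IsPoly 1 (fun v => v 0) := Helper20.Spectra.IsPoly.var 0
  have n1 : Helper20.Spectra.IsPoly 2 (fun w => Fin.tail w 0) := Helper20.Spectra.IsPoly.var 1
  have s0 : Helper20.Spectra.IsPoly 2 (fun w => w 0) := Helper20.Spectra.IsPoly.var 0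
  exact RudX.and' (RudX.le (Helper20.Spectra.IsPoly.const 1) x0) (RudX.ex x0 (RudX.eq n1 (s0.pow 2)))

lemma sqs_not_per : ¬ UltPeriodic sqs := by
  rintro ⟨p, N, hp, h⟩
  have h1 : (N + p + 1) ^ 2 ∈ sqs := ⟨Nat.one_le_pow _ _ (by omega), N + p + 1, by nlinarith, rfl⟩
  have h2 : N ≤ (N + p + 1) ^ 2 := by nlinarith
  obtain ⟨_, s, _, hs⟩ := (h _ h2).1 h1
  rcases Nat.lt_or_ge s (N + p + 2) with hlt | hge
  · have h3 := Nat.pow_le_pow_left (show s ≤ N + p + 1 by omega) 2
    omega
  · have h3 := Nat.pow_le_pow_left hge 2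
    nlinarith

/-- The spectra over such a class are not exactly the rudimentary sets of positive integers. -/
theorem star_ne_rud {r a : ℕ} (hr : 3 ≤ r) (ha : 2 ≤ a) (h : BdBR r a) {m : ℕ} {s : Fin m → ℕ}
    {P : ∀ i, Str 1 (Fin (s i))} (hP : MeetsStars P) :
    ¬ ∀ A : Set ℕ, SpectrumOmitting Kind.graph P A ↔ (IsRudimentary A ∧ 0 ∉ A) := by
  intro hall
  by_cases hM : Meets Kind.graph P
  · have h1 := (sets_final Kind.graph m s P).1 hM sqs
      ((hall sqs).2 ⟨sqs_rud, fun h0 => absurd h0.1 (by omega)⟩)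
    exact sqs_not_per h1
  · obtain ⟨hU, -⟩ := (sets_final Kind.graph m s P).2 hM
    exact ne_rud_of_universal (C := SpectrumOmitting Kind.graph P)
      (fun A hA => (star_BR hr ha h hP hA).powSq) hU hall

end Pool.Agent.Helper29.EX
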