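import Pool.Agent.Helper38.EX.BR
import Mathlib.Data.Nat.Choose.Central
import Mathlib.Data.Nat.Choose.Factorization

/-!
# A spectrum which is not in `PowSq c`

Delayed diagonalisation.  `D` consists of the numbers `pr t u` such that `(pr t (u + 1)) ^ c` is a square size of the
`t`-th set of blocks, as long as `u` is not divisible by all numbers up to `2 m`, where `m = m(t)`; and if it is, then
`2 ^ m ≤ u` and the condition is that `(pr t 0) ^ c` is not a square size, which is verified by a list of all subsets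
of a set with `m` elements.
-/

set_option autoImplicit false

namespace Pool.Agent.Helper29.EX

open Pool.Agent.Helper20.Spectra Pool.Agent.Helper38.EX

/-- pairing -/
def pr (t u : ℕ) : ℕ := (t + u + 1) ^ 2 + t

lemma pr_inj {t u t' u' : ℕ} (h : pr t u = pr t' u') : t = t' ∧ u = u' := by
  unfold pr at h
  have h1 : t + u + 1 = t' + u' + 1 := by
    by_contra hne
    rcases Nat.lt_or_gt_of_ne hne with hlt | hlt
    · have : (t + u + 1) + 1 ≤ t' + u' + 1 := hlt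
      have := Nat.pow_le_pow_left this 2
      nlinarith
    · have : (t' + u' + 1) + 1 ≤ t + u + 1 := hlt
      have := Nat.pow_le_pow_left this 2
      nlinarith
  rw [h1] at h
  omega

lemma pr_pos (t u : ℕ) : 1 ≤ pr t u := by
  unfold pr
  have := Nat.one_le_pow 2 (t + u + 1) (by omega)
  omega

lemma le_pr (t u : ℕ) : t ≤ pr t u ∧ u ≤ pr t u := by
  unfold pr
  have h : t + u + 1 ≤ (t + u + 1) ^ 2 := Nat.le_self_pow (by omega) _
  omega

/-- `u` is positive and divisible by all numbers up to `2 m` -/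
def EndP (m u : ℕ) : Prop := 1 ≤ u ∧ ∀ d, d ≤ 2 * m → 1 ≤ d → ∃ k, k ≤ u ∧ u = d * k

lemma endP_exists (m : ℕ) : ∃ u, EndP m u := by
  refine ⟨(2 * m).factorial, Nat.factorial_pos _, fun d hd h1 => ?_⟩
  obtain ⟨k, hk⟩ := Nat.dvd_factorial (show 0 < d by omega) hd
  refine ⟨k, ?_, hk⟩
  rw [hk]
  exact Nat.le_mul_of_pos_left k (by omega)

lemma endP_le {m u : ℕ} (hm : 4 ≤ m) (h : EndP m u) : 2 ^ m ≤ u := by
  have hu : u ≠ 0 := by have := h.1; omega
  have hdvd : m.centralBinom ∣ u := by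
    rw [← Nat.factorization_le_iff_dvd (Nat.centralBinom_ne_zero m) hu]
    intro p
    by_cases hp : p.Prime
    · rw [← hp.pow_dvd_iff_le_factorization hu]
      have h1 : p ^ (m.centralBinom).factorization p ≤ 2 * m :=
        Nat.pow_factorization_choose_le (show 0 < 2 * m by omega)
      obtain ⟨k, _, hk⟩ := h.2 _ h1 (Nat.one_le_pow _ _ hp.pos)
      exact ⟨k, hk⟩
    · rw [Nat.factorization_eq_zero_of_not_prime _ hp]
      exact Nat.zero_le _
  have h1 : m.centralBinom ≤ u := Nat.le_of_dvd h.1 hdvd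
  have h2 := Nat.four_pow_lt_mul_centralBinom m hm
  have h3 : m < 2 ^ m := Nat.lt_two_pow_self
  have h4 : (4 : ℕ) ^ m = 2 ^ m * 2 ^ m := by
    rw [← Nat.mul_pow]
  by_contra hlt
  have h5 : m * m.centralBinom ≤ m * u := Nat.mul_le_mul_left _ h1
  have h6 : m * u ≤ 2 ^ m * 2 ^ m := Nat.mul_le_mul h3.le (by omega)
  omega

/-! ## Tilings -/

section tile

variable (Θ : Finset (ℕ × ℕ × ℕ × ℕ)) (C : ℕ)

/-- `F` is (the graph of) an array of size `M` -/
def TileOK (F : ℕ → ℕ → ℕ → Prop) (M : ℕ) : Prop :=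
  (∀ x, x ≤ M + 1 → ∀ y, y ≤ M + 1 → ∀ c, c ≤ C → ∀ c', c' ≤ C → F x y c → F x y c' → c = c') ∧
  (∀ x, x ≤ M + 1 → ∀ y, y ≤ M + 1 → ∀ c, c ≤ C → F x y c →
    (¬ c = 0 ↔ (1 ≤ x ∧ x ≤ M) ∧ (1 ≤ y ∧ y ≤ M))) ∧
  ∀ x, x ≤ M → ∀ y, y ≤ M → ∃ w ∈ Θ, F x y w.1 ∧ F (x + 1) y w.2.1 ∧ F x (y + 1) w.2.2.1 ∧
    F (x + 1) (y + 1) w.2.2.2

variable {Θ C}

lemma TileOK.congr {F F' : ℕ → ℕ → ℕ → Prop} {M : ℕ}
    (hC : ∀ w ∈ Θ, w.1 ≤ C ∧ w.2.1 ≤ C ∧ w.2.2.1 ≤ C ∧ w.2.2.2 ≤ C)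
    (h : ∀ x, x ≤ M + 1 → ∀ y, y ≤ M + 1 → ∀ c, c ≤ C → (F x y c ↔ F' x y c))
    (hF : TileOK Θ C F M) : TileOK Θ C F' M := by
  refine ⟨fun x hx y hy c hc c' hc' h1 h2 => hF.1 x hx y hy c hc c' hc'
    ((h x hx y hy c hc).2 h1) ((h x hx y hy c' hc').2 h2), fun x hx y hy c hc h1 =>
    hF.2.1 x hx y hy c hc ((h x hx y hy c hc).2 h1), fun x hx y hy => ?_⟩
  obtain ⟨w, hw, h1, h2, h3, h4⟩ := hF.2.2 x hx y hy
  obtain ⟨c1, c2, c3, c4⟩ := hC w hw
  exact ⟨w, hw, (h _ (by omega) _ (by omega) _ c1).1 h1, (h _ (by omega) _ (by omega) _ c2).1 h2,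
    (h _ (by omega) _ (by omega) _ c3).1 h3, (h _ (by omega) _ (by omega) _ c4).1 h4⟩

lemma tile_iff (hC : ∀ w ∈ Θ, w.1 ≤ C ∧ w.2.1 ≤ C ∧ w.2.2.1 ≤ C ∧ w.2.2.2 ≤ C) {M : ℕ}
    (hM : 1 ≤ M) : M ∈ squareSizes Θ ↔ ∃ F, TileOK Θ C F M := by
  classical
  constructor
  · rintro ⟨_, a, h1, h2⟩
    refine ⟨fun x y c => a x y = c, fun x _ y _ c _ c' _ h h' => h.symm.trans h', ?_, ?_⟩
    · rintro x _ y _ _ _ rfl
      exact h1 x y
    · exact fun x hx y hy => ⟨_, h2 x y hx hy, rfl, rfl, rfl, rfl⟩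
  · rintro ⟨F, h1, h2, h3⟩
    have hex : ∀ x y, x ≤ M + 1 → y ≤ M + 1 → ∃ c, c ≤ C ∧ F x y c := by
      intro x y hx hy
      by_cases hx' : x ≤ M <;> by_cases hy' : y ≤ M
      · obtain ⟨w, hw, h4, _⟩ := h3 x hx' y hy'
        exact ⟨_, (hC w hw).1, h4⟩
      · obtain ⟨w, hw, _, _, h4, _⟩ := h3 x hx' M le_rfl
        obtain rfl : y = M + 1 := by omega
        exact ⟨_, (hC w hw).2.2.1, h4⟩
      · obtain ⟨w, hw, _, h4, _⟩ := h3 M le_rfl y hy'
        obtain rfl : x = M + 1 := by omega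
        exact ⟨_, (hC w hw).2.1, h4⟩
      · obtain ⟨w, hw, _, _, _, h4⟩ := h3 M le_rfl M le_rfl
        obtain rfl : x = M + 1 := by omega
        obtain rfl : y = M + 1 := by omega
        exact ⟨_, (hC w hw).2.2.2, h4⟩
    let a : ℕ → ℕ → ℕ := fun x y => if h : x ≤ M + 1 ∧ y ≤ M + 1 then (hex x y h.1 h.2).choose else 0
    have ha : ∀ x y, x ≤ M + 1 → y ≤ M + 1 → a x y ≤ C ∧ F x y (a x y) := by
      intro x y hx hy
      have : a x y = (hex x y hx hy).choose := dif_pos ⟨hx, hy⟩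
      rw [this]
      exact (hex x y hx hy).choose_spec
    refine ⟨hM, a, fun x y => ?_, fun x y hx hy => ?_⟩
    · by_cases h : x ≤ M + 1 ∧ y ≤ M + 1
      · have h4 := ha x y h.1 h.2
        exact h2 x h.1 y h.2 _ h4.1 h4.2
      · have h4 : a x y = 0 := dif_neg h
        rw [h4]
        constructor
        · intro h5
          exact absurd rfl h5
        · intro h5
          omega
    · obtain ⟨w, hw, g1, g2, g3, g4⟩ := h3 x hx y hy
      obtain ⟨c1, c2, c3, c4⟩ := hC w hw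
      have e : ∀ x y c, x ≤ M + 1 → y ≤ M + 1 → c ≤ C → F x y c → a x y = c := by
        intro x y c hx hy hc hF
        have h4 := ha x y hx hy
        exact h1 x hx y hy _ h4.1 _ hc h4.2 hF
      rw [e x y _ (by omega) (by omega) c1 g1, e (x + 1) y _ (by omega) (by omega) c2 g2,
        e x (y + 1) _ (by omega) (by omega) c3 g3, e (x + 1) (y + 1) _ (by omega) (by omega) c4 g4]
      exact hw

/-- The family `G` is closed under the change of one position. -/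
def Flip (C : ℕ) (G : ℕ → ℕ → ℕ → ℕ → Prop) (n M : ℕ) : Prop :=
  ∀ z, z ≤ n → ∀ x, x ≤ M + 1 → ∀ y, y ≤ M + 1 → ∀ c, c ≤ C → ∃ z', z' ≤ n ∧
    ∀ x', x' ≤ M + 1 → ∀ y', y' ≤ M + 1 → ∀ c', c' ≤ C →
      (G z' x' y' c' ↔ ((G z x' y' c' ∧ ¬ (x' = x ∧ y' = y ∧ c' = c)) ∨
        (¬ G z x' y' c' ∧ (x' = x ∧ y' = y ∧ c' = c))))

/-- Then it contains all arrays. -/
lemma flip_all {G : ℕ → ℕ → ℕ → ℕ → Prop} {n M : ℕ} (h : Flip C G n M) (F : ℕ → ℕ → ℕ → Prop) :
    ∃ z, z ≤ n ∧ ∀ x, x ≤ M + 1 → ∀ y, y ≤ M + 1 → ∀ c, c ≤ C → (G z x y c ↔ F x y c) := by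
  classical
  let box : Finset (ℕ × ℕ × ℕ) := Finset.range (M + 2) ×ˢ Finset.range (M + 2) ×ˢ Finset.range (C + 1)
  have hbox : ∀ x y c, (x, y, c) ∈ box ↔ x ≤ M + 1 ∧ y ≤ M + 1 ∧ c ≤ C := by
    intro x y c
    simp only [box, Finset.mem_product, Finset.mem_range]
    omega
  have key : ∀ S : Finset (ℕ × ℕ × ℕ), S ⊆ box → ∃ z, z ≤ n ∧ ∀ x, x ≤ M + 1 → ∀ y, y ≤ M + 1 →
      ∀ c, c ≤ C → ((x, y, c) ∈ S → (G z x y c ↔ F x y c)) := by
    intro S
    induction S using Finset.induction_on with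
    | empty => exact fun _ => ⟨0, Nat.zero_le _, fun x _ y _ c _ h => absurd h (by simp)⟩
    | insert p S hp ih =>
      intro hS
      obtain ⟨z, hz, h1⟩ := ih (fun q hq => hS (Finset.mem_insert_of_mem hq))
      obtain ⟨x₀, y₀, c₀⟩ := p
      have hb := (hbox x₀ y₀ c₀).1 (hS (Finset.mem_insert_self _ _))
      by_cases h2 : G z x₀ y₀ c₀ ↔ F x₀ y₀ c₀
      · refine ⟨z, hz, fun x hx y hy c hc hxy => ?_⟩
        rcases Finset.mem_insert.1 hxy with h3 | h3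
        · simp only [Prod.mk.injEq] at h3
          obtain ⟨rfl, rfl, rfl⟩ := h3
          exact h2
        · exact h1 x hx y hy c hc h3
      · obtain ⟨z', hz', h3⟩ := h z hz x₀ hb.1 y₀ hb.2.1 c₀ hb.2.2
        refine ⟨z', hz', fun x hx y hy c hc hxy => ?_⟩
        have h4 := h3 x hx y hy c hc
        rcases Finset.mem_insert.1 hxy with h5 | h5
        · simp only [Prod.mk.injEq] at h5
          obtain ⟨rfl, rfl, rfl⟩ := h5
          rw [h4]
          simp only [not_true_eq_false, and_false, false_or, and_true]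
          exact not_iff.1 h2
        · have h6 : ¬ (x = x₀ ∧ y = y₀ ∧ c = c₀) := by
            rintro ⟨rfl, rfl, rfl⟩
            exact hp h5
          rw [h4, ← h1 x hx y hy c hc h5]
          simp only [h6, not_false_eq_true, and_true, and_false, or_false]
  obtain ⟨z, hz, h1⟩ := key box subset_rfl
  exact ⟨z, hz, fun x hx y hy c hc => h1 x hx y hy c hc ((hbox x y c).2 ⟨hx, hy, hc⟩)⟩

/-- A list of all subsets of the positions. -/
lemma exists_flip (C : ℕ) {n M : ℕ} (h : 2 ^ ((M + 2) ^ 2 * (C + 1)) ≤ n + 1) :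
    ∃ G, Flip C G n M := by
  classical
  let Pos := Fin (M + 2) × Fin (M + 2) × Fin (C + 1)
  have hcard : Fintype.card (Pos → Bool) ≤ Fintype.card (Fin (n + 1)) := by
    rw [Fintype.card_fun, Fintype.card_bool, Fintype.card_fin, Fintype.card_prod, Fintype.card_prod,
      Fintype.card_fin, Fintype.card_fin]
    refine le_trans (le_of_eq ?_) h
    congr 1
    ring
  obtain ⟨g⟩ := Function.Embedding.nonempty_of_card_le hcard
  have hsurj : ∃ σ : Fin (n + 1) → (Pos → Bool), Function.Surjective σ :=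
    ⟨Function.invFun g, Function.invFun_surjective g.injective⟩
  obtain ⟨σ, hσ⟩ := hsurj
  let G : ℕ → ℕ → ℕ → ℕ → Prop := fun z x y c => ∃ (hz : z < n + 1) (hx : x < M + 2) (hy : y < M + 2)
    (hc : c < C + 1), σ ⟨z, hz⟩ (⟨x, hx⟩, ⟨y, hy⟩, ⟨c, hc⟩) = true
  refine ⟨G, fun z hz x hx y hy c hc => ?_⟩
  let p : Pos := (⟨x, by omega⟩, ⟨y, by omega⟩, ⟨c, by omega⟩)
  obtain ⟨z', hz'⟩ := hσ (fun q => xor (σ ⟨z, by omega⟩ q) (decide (q = p)))
  refine ⟨z', by have := z'.2; omega, fun x' hx' y' hy' c' hc' => ?_⟩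
  let q : Pos := (⟨x', by omega⟩, ⟨y', by omega⟩, ⟨c', by omega⟩)
  have h1 : G z' x' y' c' ↔ σ z' q = true := by
    constructor
    · rintro ⟨_, _, _, _, h⟩
      exact h
    · exact fun h => ⟨z'.2, by omega, by omega, by omega, h⟩
  have h2 : G z x' y' c' ↔ σ ⟨z, by omega⟩ q = true := by
    constructor
    · rintro ⟨_, _, _, _, h⟩
      exact h
    · exact fun h => ⟨by omega, by omega, by omega, by omega, h⟩
  have h3 : (x' = x ∧ y' = y ∧ c' = c) ↔ q = p := by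
    constructor
    · rintro ⟨rfl, rfl, rfl⟩
      rfl
    · intro h
      exact ⟨congrArg (fun q : Pos => (q.1 : ℕ)) h, congrArg (fun q : Pos => (q.2.1 : ℕ)) h,
        congrArg (fun q : Pos => (q.2.2 : ℕ)) h⟩
  rw [h1, h2, h3, hz']
  by_cases h4 : q = p
  · simp [h4]
  · simp [h4]

end tile

end Pool.Agent.Helper29.EX
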