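import Pool.Agent.Helper20.OP.EF
import Pool.Agent.Helper20.EX.Graphs

/-!
# Moving the end of a long path

Two graphs on the same set: base points `B`, and for each `e` two parallel paths with `L e` vertices.  The last vertex
of the path `(e, true)` is attached to the base points `att1 e` and to the last vertices of the paths `(e', true)` with
`att2 e e'`; the base points `att0 e` are attached to the first vertex of the path `(e, β)`.  If all `L e` are large, the graphs for `β = true` and for `β = false` cannot be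
distinguished in `q` rounds (`lad_ef`): the map which exchanges the two paths in the columns before `c e` is
a partial isomorphism away from the column `c e`, and `c e` can be moved away from the chosen elements.
-/

set_option autoImplicit false

namespace Pool.Agent.Helper29.EX

open Pool.Agent.Helper20.OP

variable {B ι : Type} {L : ι → ℕ} {att0 att1 : ι → B → Prop} {att2 : ι → ι → Prop}

/-- base points, and two parallel paths with `L e` vertices for each `e` -/
abbrev LadU (B ι : Type) (L : ι → ℕ) : Type := B ⊕ {x : ι × ℕ × Bool // x.2.1 < L x.1}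

/-- the graph -/
def lad (L : ι → ℕ) (att0 att1 : ι → B → Prop) (att2 : ι → ι → Prop) (β : Bool) : LadU B ι L → LadU B ι L → Prop
  | .inl _, .inl _ => False
  | .inl u, .inr y => (att0 y.1.1 u ∧ y.1.2.1 = 0 ∧ y.1.2.2 = β) ∨
      (att1 y.1.1 u ∧ y.1.2.1 + 1 = L y.1.1 ∧ y.1.2.2 = true)
  | .inr x, .inl u => (att0 x.1.1 u ∧ x.1.2.1 = 0 ∧ x.1.2.2 = β) ∨
      (att1 x.1.1 u ∧ x.1.2.1 + 1 = L x.1.1 ∧ x.1.2.2 = true)
  | .inr x, .inr y => (x.1.1 = y.1.1 ∧ x.1.2.2 = y.1.2.2 ∧
      (y.1.2.1 = x.1.2.1 + 1 ∨ x.1.2.1 = y.1.2.1 + 1)) ∨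
      (att2 x.1.1 y.1.1 ∧ (x.1.2.1 + 1 = L x.1.1 ∧ y.1.2.1 + 1 = L y.1.1) ∧
        (x.1.2.2 = true ∧ y.1.2.2 = true))

lemma lad_irrefl (h2 : ∀ e, ¬ att2 e e) (β : Bool) (x : LadU B ι L) :
    ¬ lad L att0 att1 att2 β x x := by
  rcases x with u | x
  · exact fun h => h
  · rintro (⟨_, _, h | h⟩ | ⟨h, _⟩)
    · omega
    · omega
    · exact h2 _ h

lemma lad_symm (h2 : ∀ e e', att2 e e' → att2 e' e) (β : Bool) (x y : LadU B ι L)
    (h : lad L att0 att1 att2 β x y) : lad L att0 att1 att2 β y x := by
  rcases x with u | x <;> rcases y with v | y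
  · exact h
  · exact h
  · exact h
  · rcases h with h | h
    · exact Or.inl ⟨h.1.symm, h.2.1.symm, h.2.2.symm⟩
    · exact Or.inr ⟨h2 _ _ h.1, h.2.1.symm, h.2.2.symm⟩

/-- exchange of the two paths in the columns before `c e` -/
def flp (c : ι → ℕ) : LadU B ι L → LadU B ι L
  | .inl u => .inl u
  | .inr x => .inr ⟨(x.1.1, x.1.2.1, if x.1.2.1 < c x.1.1 then !x.1.2.2 else x.1.2.2), x.2⟩

lemma flp_flp (c : ι → ℕ) (x : LadU B ι L) : flp c (flp c x) = x := by
  rcases x with u | ⟨⟨e, i, s⟩, h⟩
  · rfl
  · by_cases hi : i < c e <;> simp [flp, hi]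

lemma flp_inj (c : ι → ℕ) : Function.Injective (flp c : LadU B ι L → LadU B ι L) := fun x y h => by
  rw [← flp_flp c x, h, flp_flp]

/-- the columns are far from `c` -/
def Far (d : ℕ) (c : ι → ℕ) : LadU B ι L → Prop
  | .inl _ => True
  | .inr x => x.1.2.1 + d < c x.1.1 ∨ c x.1.1 + d ≤ x.1.2.1

lemma far_flp (d : ℕ) (c c' : ι → ℕ) (x : LadU B ι L) : Far d c (flp c' x) ↔ Far d c x := by
  rcases x with u | x
  · exact Iff.rfl
  · exact Iff.rfl

lemma lad_flp {c : ι → ℕ} (hc : ∀ e, 1 ≤ c e ∧ c e < L e) {x y : LadU B ι L} (hx : Far 1 c x)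
    (hy : Far 1 c y) : lad L att0 att1 att2 true x y ↔ lad L att0 att1 att2 false (flp c x) (flp c y) := by
  have key : ∀ (u : B) (y : {x : ι × ℕ × Bool // x.2.1 < L x.1}),
      ((att0 y.1.1 u ∧ y.1.2.1 = 0 ∧ y.1.2.2 = true) ∨
        (att1 y.1.1 u ∧ y.1.2.1 + 1 = L y.1.1 ∧ y.1.2.2 = true)) ↔
      ((att0 y.1.1 u ∧ y.1.2.1 = 0 ∧ (if y.1.2.1 < c y.1.1 then !y.1.2.2 else y.1.2.2) = false) ∨
        (att1 y.1.1 u ∧ y.1.2.1 + 1 = L y.1.1 ∧
          (if y.1.2.1 < c y.1.1 then !y.1.2.2 else y.1.2.2) = true)) := by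
    rintro u ⟨⟨e, i, s⟩, hi⟩
    have hce := hc e
    simp only at hi ⊢
    refine or_congr (and_congr_right fun _ => and_congr_right fun h0 => ?_)
      (and_congr_right fun _ => and_congr_right fun h0 => ?_)
    · have h1 : i < c e := by omega
      rw [if_pos h1]
      cases s <;> simp
    · have h1 : ¬ i < c e := by omega
      rw [if_neg h1]
  rcases x with u | x <;> rcases y with v | y
  · exact Iff.rfl
  · exact key u y
  · exact key v x
  · obtain ⟨⟨e, i, s⟩, hi⟩ := x
    obtain ⟨⟨e', i', s'⟩, hi'⟩ := y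
    simp only [Far] at hx hy
    have hce := hc e
    have hce' := hc e'
    simp only at hi hi'
    refine or_congr ?_ (and_congr_right fun _ => and_congr_right fun h0 => ?_)
    · show (e = e' ∧ s = s' ∧ (i' = i + 1 ∨ i = i' + 1)) ↔
        (e = e' ∧ (if i < c e then !s else s) = (if i' < c e' then !s' else s') ∧
          (i' = i + 1 ∨ i = i' + 1))
      constructor
      · rintro ⟨rfl, rfl, h⟩
        refine ⟨rfl, ?_, h⟩
        have h1 : (i < c e) ↔ (i' < c e) := by omega
        by_cases h2 : i < c e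
        · rw [if_pos h2, if_pos (h1.1 h2)]
        · rw [if_neg h2, if_neg (fun h => h2 (h1.2 h))]
      · rintro ⟨rfl, h3, h⟩
        refine ⟨rfl, ?_, h⟩
        have h1 : (i < c e) ↔ (i' < c e) := by omega
        by_cases h2 : i < c e
        · rw [if_pos h2, if_pos (h1.1 h2)] at h3
          exact Bool.not_inj h3
        · rwa [if_neg h2, if_neg (fun h => h2 (h1.2 h))] at h3
    · show (s = true ∧ s' = true) ↔ ((if i < c e then !s else s) = true ∧
        (if i' < c e' then !s' else s') = true)
      have h0' : i + 1 = L e ∧ i' + 1 = L e' := h0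
      have h1 : ¬ i < c e := by omega
      have h2 : ¬ i' < c e' := by omega
      rw [if_neg h1, if_neg h2]

/-- moving `c` -/
lemma exists_move {d : ℕ} (hd : 1 ≤ d) {c : ι → ℕ} (hc : ∀ e, 4 * d < c e ∧ c e + 4 * d < L e)
    (x : LadU B ι L) : ∃ c' : ι → ℕ, (∀ e, d < c' e ∧ c' e + d < L e) ∧ Far d c' x ∧
      ∀ y : LadU B ι L, Far (4 * d) c y → Far d c' y ∧ flp c' y = flp c y := by
  classical
  have hsame : ∀ y : LadU B ι L, Far (4 * d) c y → Far d c y := by
    rintro (u | y) hy
    · trivial
    · simp only [Far] at hy ⊢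
      omega
  by_cases hx : Far d c x
  · exact ⟨c, fun e => by have := hc e; omega, hx, fun y hy => ⟨hsame y hy, rfl⟩⟩
  · rcases x with u | ⟨⟨e, i, s⟩, hi⟩
    · exact absurd trivial hx
    · simp only [Far] at hx
      have h1 : c e ≤ i + d ∧ i < c e + d := by omega
      have hce := hc e
      refine ⟨Function.update c e (i + d + 1), fun e' => ?_, ?_, ?_⟩
      · by_cases he : e' = e
        · subst he
          rw [Function.update_self]
          omega
        · rw [Function.update_of_ne he]
          have := hc e'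
          omega
      · simp only [Far, Function.update_self]
        omega
      · rintro (u | ⟨⟨e', k, s'⟩, hk⟩) hy
        · exact ⟨trivial, rfl⟩
        · simp only [Far] at hy
          by_cases he : e' = e
          · subst he
            refine ⟨?_, ?_⟩
            · simp only [Far, Function.update_self]
              omega
            · have h2 : (k < i + d + 1) ↔ (k < c e') := by omega
              simp only [flp, Function.update_self, h2]
          · refine ⟨?_, ?_⟩
            · simp only [Far, Function.update_of_ne he]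
              omega
            · simp only [flp, Function.update_of_ne he]

/-- The two graphs cannot be distinguished. -/
theorem lad_ef : ∀ (q r : ℕ) (a : Fin r → LadU B ι L) (c : ι → ℕ),
    (∀ e, 4 ^ q < c e ∧ c e + 4 ^ q < L e) → (∀ j, Far (4 ^ q) c (a j)) →
    EFq q (fun _ : Fin 1 => lad L att0 att1 att2 true) (fun _ => lad L att0 att1 att2 false) a
      (fun j => flp c (a j)) := by
  have at0 : ∀ (r : ℕ) (a : Fin r → LadU B ι L) (c : ι → ℕ), (∀ e, 1 ≤ c e ∧ c e < L e) →
      (∀ j, Far 1 c (a j)) → AtEq (fun _ : Fin 1 => lad L att0 att1 att2 true)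
        (fun _ => lad L att0 att1 att2 false) a (fun j => flp c (a j)) := fun r a c hc ha =>
    ⟨fun i j => ⟨fun h => congrArg _ h, fun h => flp_inj c h⟩, fun _ i j =>
      lad_flp hc (ha i) (ha j)⟩
  have sn : ∀ (r : ℕ) (a : Fin r → LadU B ι L) (c c' : ι → ℕ) (x : LadU B ι L),
      (∀ j, flp c' (a j) = flp c (a j)) →
      (Fin.snoc (fun j => flp c (a j)) (flp c' x) : Fin (r + 1) → LadU B ι L) =
        fun j => flp c' ((Fin.snoc a x : Fin (r + 1) → LadU B ι L) j) := by
    intro r a c c' x h
    funext j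
    refine Fin.lastCases ?_ (fun j => ?_) j
    · rw [Fin.snoc_last, Fin.snoc_last]
    · rw [Fin.snoc_castSucc, Fin.snoc_castSucc, h]
  intro q
  induction q with
  | zero =>
    intro r a c hc ha
    exact at0 r a c (fun e => by have := hc e; simp at this; omega) (by simpa using ha)
  | succ q ih =>
    intro r a c hc ha
    have hd : 1 ≤ 4 ^ q := Nat.one_le_pow _ _ (by omega)
    have h4 : 4 ^ (q + 1) = 4 * 4 ^ q := by ring
    rw [h4] at hc ha
    refine ⟨at0 r a c (fun e => by have := hc e; omega) (fun j => ?_), fun x => ?_, fun y => ?_⟩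
    · have := ha j
      rcases haj : a j with u | y
      · trivial
      · rw [haj] at this
        simp only [Far] at this ⊢
        omega
    · obtain ⟨c', h1, h2, h3⟩ := exists_move hd hc x
      refine ⟨flp c' x, ?_⟩
      rw [sn r a c c' x (fun j => (h3 _ (ha j)).2)]
      refine ih (r + 1) _ c' h1 (fun j => ?_)
      refine Fin.lastCases ?_ (fun j => ?_) j
      · rw [Fin.snoc_last]
        exact h2
      · rw [Fin.snoc_castSucc]
        exact (h3 _ (ha j)).1
    · obtain ⟨c', h1, h2, h3⟩ := exists_move hd hc y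
      refine ⟨flp c' y, ?_⟩
      have h5 := sn r a c c' (flp c' y) (fun j => (h3 _ (ha j)).2)
      rw [flp_flp] at h5
      rw [h5]
      refine ih (r + 1) _ c' h1 (fun j => ?_)
      refine Fin.lastCases ?_ (fun j => ?_) j
      · rw [Fin.snoc_last]
        exact (far_flp _ _ _ _).2 h2
      · rw [Fin.snoc_castSucc]
        exact (h3 _ (ha j)).1

end Pool.Agent.Helper29.EX
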