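import Pool.Agent.Helper29.EX.Lad
import Pool.Agent.Helper29.EX.Sizes
import Pool.Agent.Helper20.EX.Monotone

/-!
# Definable classes of graphs closed under subgraphs: subdivisions

A first-order definable class of graphs which is closed under subgraphs and contains all finite subgraphs of
`stars` contains all `r`-subdivisions for some `r`.
-/

set_option autoImplicit false

namespace Pool.Agent.Helper29.EX

open FirstOrder FirstOrder.Language Pool.Agent.Helper20.Spectra Pool.Agent.Helper20.OP Pool.Agent.Helper20.FS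
open Pool.Agent.Helper20.EX (stars starStep EdgeOf subStep subdiv IsSubdiv HasSub SpectrumOver Monotone)

/-- `K` consists of the graphs which satisfy `ψ` -/
def DefBy (K : ∀ n : ℕ, Str 1 (Fin n) → Prop) (ψ : (binLang 1).Sentence) : Prop :=
  ∀ (n : ℕ) (R : Str 1 (Fin n)), K n R ↔ (Helper20.FS.Kind.graph.Is R ∧ Models R ψ)

/-- the graphs which satisfy `ψ` -/
def KV (ψ : (binLang 1).Sentence) (V : Type) (R : Str 1 V) : Prop := Helper20.FS.Kind.graph.Is R ∧ Models R ψ

lemma def_kv (ψ : (binLang 1).Sentence) : Def0 1 (KV ψ) := by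
  have h : Def0 1 (Omit Kind.graph (fun i : Fin 0 => (i.elim0 : Str 1 (Fin 0)))) :=
    def_omit Kind.graph (s := fun _ : Fin 0 => 0) _
  refine ((h.and (Def0.models ψ)).congr fun V R _ => ?_)
  exact ⟨fun h => ⟨⟨h.1, fun i => i.elim0⟩, h.2⟩, fun h => ⟨h.1.1, h.2⟩⟩

/-- Moving the ends of the paths: membership in a definable class. -/
theorem kv_lad (ψ : (binLang 1).Sentence) : ∃ ℓ : ℕ, 1 ≤ ℓ ∧ ∀ (B ι : Type) (L : ι → ℕ)
    (att0 att1 : ι → B → Prop) (att2 : ι → ι → Prop), (∀ e, ℓ ≤ L e) →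
    KV ψ (LadU B ι L) (fun _ => lad L att0 att1 att2 false) →
    KV ψ (LadU B ι L) (fun _ => lad L att0 att1 att2 true) := by
  obtain ⟨q, hq⟩ := Inv.of_def (def_kv ψ)
  refine ⟨2 * 4 ^ q + 2, by omega, fun B ι L att0 att1 att2 hL h => ?_⟩
  exact (hq _ _ _ _ (fun i => i.elim0) _ (lad_ef q 0 (fun i => i.elim0) (fun _ => 4 ^ q + 1)
    (fun e => by have := hL e; omega) (fun j => j.elim0))).2 h

/-- `K` contains all finite subgraphs of the infinite graph `S` -/
def HasAll {W : Type} (S : Str 1 W) (K : ∀ n : ℕ, Str 1 (Fin n) → Prop) : Prop :=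
  ∀ (n : ℕ) (R : Str 1 (Fin n)), Helper20.FS.Kind.graph.Is R → Contains Kind.graph R S → K n R

/-- finite graphs on any set -/
lemma kv_of_hasAll {W : Type} {S : Str 1 W} {K : ∀ n : ℕ, Str 1 (Fin n) → Prop}
    {ψ : (binLang 1).Sentence} (hK : DefBy K ψ) (hS : HasAll S K) {V : Type} [Finite V]
    {E : V → V → Prop} (hE : Gr E) (h : Contains Kind.graph (fun _ : Fin 1 => E) S) :
    KV ψ V (fun _ => E) := by
  obtain ⟨q, hq⟩ := Inv.of_def (def_kv ψ)
  let e : V ≃ Fin (Nat.card V) := Finite.equivFin V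
  refine (transport e hq).2 ?_
  obtain ⟨f, hf, hfE⟩ := h
  exact (hK _ _).1 (hS _ _ ⟨fun _ => hE.irr _, fun _ _ => hE.symm _ _⟩
    ⟨fun x => f (e.symm x), hf.comp e.symm.injective, fun x y hxy => hfE _ _ hxy⟩)

/-- subgraphs of finite graphs on any set -/
lemma mem_of_kv {K : ∀ n : ℕ, Str 1 (Fin n) → Prop} {ψ : (binLang 1).Sentence} (hK : DefBy K ψ)
    (hM : Monotone K) {V : Type} [Finite V] {E : V → V → Prop} (h : KV ψ V (fun _ => E)) {N : ℕ}
    {G : Str 1 (Fin N)} (hG : Helper20.FS.Kind.graph.Is G) (hsub : Contains Kind.graph G (fun _ : Fin 1 => E)) :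
    K N G := by
  obtain ⟨q, hq⟩ := Inv.of_def (def_kv ψ)
  let e : V ≃ Fin (Nat.card V) := Finite.equivFin V
  have h1 := (hK _ _).2 ((transport e hq).1 h)
  obtain ⟨f, hf, hfE⟩ := hsub
  exact hM _ _ _ _ h1 hG ⟨fun x => e (f x), e.injective.comp hf, fun x y hxy => by
    show E (e.symm (e (f x))) (e.symm (e (f y)))
    rw [e.symm_apply_apply, e.symm_apply_apply]
    exact hfE _ _ hxy⟩

lemma finite_ladU {B ι : Type} [Finite B] [Finite ι] (L : ι → ℕ) : Finite (LadU B ι L) := by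
  have : Finite {x : ι × ℕ × Bool // x.2.1 < L x.1} := by
    refine Finite.of_injective (β := Σ e : ι, Fin (L e) × Bool)
      (fun x => ⟨x.1.1, ⟨x.1.2.1, x.2⟩, x.1.2.2⟩) ?_
    rintro ⟨⟨e, i, s⟩, hi⟩ ⟨⟨e', i', s'⟩, hi'⟩ h
    simp only [Sigma.mk.injEq] at h
    obtain ⟨rfl, h2⟩ := h
    have h3 := eq_of_heq h2
    simp only [Prod.mk.injEq, Fin.mk.injEq] at h3
    obtain ⟨rfl, rfl⟩ := h3
    rfl
  infer_instance

lemma sub_irrefl (r : ℕ) {n : ℕ} (R : Str 1 (Fin n)) (z : Fin n ⊕ EdgeOf R × Fin r) :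
    ¬ subStep r R z z := by
  rcases z with u | ⟨p, k⟩
  · rintro ⟨-, h, -⟩
    exact lt_irrefl _ h
  · rintro ⟨-, h⟩
    omega

lemma isSubdiv_graph {r n N : ℕ} {R : Str 1 (Fin n)} {G : Str 1 (Fin N)} (h : IsSubdiv r R G) :
    Helper20.FS.Kind.graph.Is G := by
  obtain ⟨e, he⟩ := h
  refine ⟨fun x hx => ?_, fun x y hxy => ?_⟩
  · rcases (he x x).1 hx with h1 | h1
    · exact sub_irrefl r R _ h1
    · exact sub_irrefl r R _ h1
  · exact (he y x).2 ((he x y).1 hxy).symm

/-- the star forest -/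
lemma starForest {n ℓ : ℕ} (R : Str 1 (Fin n)) : Contains Kind.graph
    (fun _ : Fin 1 => lad (B := Fin n) (ι := EdgeOf R) (fun _ => ℓ) (fun e u => u = e.1.1)
      (fun e u => u = e.1.2) (fun _ _ => False) false) stars := by
  obtain ⟨code, hcode⟩ : ∃ code : EdgeOf R → ℕ, Function.Injective code := by
    obtain ⟨k, ⟨e⟩⟩ := Finite.exists_equiv_fin (EdgeOf R)
    exact ⟨fun x => e x, fun x y h => e.injective (Fin.ext h)⟩
  let f : LadU (Fin n) (EdgeOf R) (fun _ => ℓ) → ℕ × Option (ℕ × ℕ) := fun x => match x with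
    | .inl u => (u, none)
    | .inr x => if x.1.2.2 = true then (x.1.1.1.2, some (2 * code x.1.1 + 1, ℓ - 1 - x.1.2.1))
        else (x.1.1.1.1, some (2 * code x.1.1, x.1.2.1))
  have hfl : ∀ u, f (.inl u) = ((u : ℕ), none) := fun _ => rfl
  have hft : ∀ e i (h : i < ℓ), f (.inr ⟨(e, i, true), h⟩) =
      ((e.1.2 : ℕ), some (2 * code e + 1, ℓ - 1 - i)) := fun e i h => rfl
  have hff : ∀ e i (h : i < ℓ), f (.inr ⟨(e, i, false), h⟩) =
      ((e.1.1 : ℕ), some (2 * code e, i)) := fun e i h => rfl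
  refine ⟨f, ?_, ?_⟩
  · rintro (u | ⟨⟨e, i, s⟩, hi⟩) (v | ⟨⟨e', i', s'⟩, hi'⟩) h
    · rw [hfl, hfl] at h
      exact congrArg Sum.inl (Fin.ext (congrArg Prod.fst h))
    · cases s'
      · rw [hfl, hff _ _ hi'] at h
        exact absurd (congrArg Prod.snd h) (by simp)
      · rw [hfl, hft _ _ hi'] at h
        exact absurd (congrArg Prod.snd h) (by simp)
    · cases s
      · rw [hfl, hff _ _ hi] at h
        exact absurd (congrArg Prod.snd h) (by simp)
      · rw [hfl, hft _ _ hi] at h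
        exact absurd (congrArg Prod.snd h) (by simp)
    · simp only at hi hi'
      cases s <;> cases s'
      · rw [hff _ _ hi, hff _ _ hi'] at h
        simp only [Prod.mk.injEq, Option.some.injEq] at h
        have h1 : e = e' := hcode (by omega)
        have h2 : i = i' := h.2.2
        subst h1
        subst h2
        rfl
      · rw [hff _ _ hi, hft _ _ hi'] at h
        simp only [Prod.mk.injEq, Option.some.injEq] at h
        omega
      · rw [hft _ _ hi, hff _ _ hi'] at h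
        simp only [Prod.mk.injEq, Option.some.injEq] at h
        omega
      · rw [hft _ _ hi, hft _ _ hi'] at h
        simp only [Prod.mk.injEq, Option.some.injEq] at h
        have h1 : e = e' := hcode (by omega)
        have h2 : i = i' := by omega
        subst h1
        subst h2
        rfl
  · have key : ∀ (u : Fin n) (y : {x : EdgeOf R × ℕ × Bool // x.2.1 < ℓ}),
        ((u = y.1.1.1.1 ∧ y.1.2.1 = 0 ∧ y.1.2.2 = false) ∨
          (u = y.1.1.1.2 ∧ y.1.2.1 + 1 = ℓ ∧ y.1.2.2 = true)) →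
        (f (.inl u)).1 = (f (.inr y)).1 ∧ starStep (f (.inl u)).2 (f (.inr y)).2 := by
      rintro u ⟨⟨e, i, s⟩, hi⟩ (⟨h1, h2, h3⟩ | ⟨h1, h2, h3⟩)
      · simp only at hi h1 h2 h3
        subst h3
        rw [hfl, hff _ _ hi]
        exact ⟨by rw [h1], h2⟩
      · simp only at hi h1 h2 h3
        subst h3
        rw [hfl, hft _ _ hi]
        exact ⟨by rw [h1], show ℓ - 1 - i = 0 by omega⟩
    rintro (u | x) (v | y) h
    · exact h.elim
    · obtain ⟨h1, h2⟩ := key u y h
      exact ⟨h1, Or.inl h2⟩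
    · obtain ⟨h1, h2⟩ := key v x h
      exact ⟨h1.symm, Or.inr h2⟩
    · rcases h with h | h
      · obtain ⟨⟨e, i, s⟩, hi⟩ := x
        obtain ⟨⟨e', i', s'⟩, hi'⟩ := y
        simp only at h hi hi'
        obtain ⟨rfl, rfl, h3⟩ := h
        cases s
        · rw [hff _ _ hi, hff _ _ hi']
          exact ⟨rfl, h3.imp (fun h => ⟨rfl, h⟩) (fun h => ⟨rfl, h⟩)⟩
        · rw [hft _ _ hi, hft _ _ hi']
          refine ⟨rfl, ?_⟩
          rcases h3 with h3 | h3
          · exact Or.inr ⟨rfl, by omega⟩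
          · exact Or.inl ⟨rfl, by omega⟩
      · exact h.1.elim

/-- Subdivisions in definable classes. -/
theorem mono_hasSub {K : ∀ n : ℕ, Str 1 (Fin n) → Prop} {ψ : (binLang 1).Sentence}
    (hK : DefBy K ψ) (hM : Monotone K) (hS : HasAll stars K) : ∃ r, 1 ≤ r ∧ HasSub r K := by
  obtain ⟨ℓ, hℓ, h⟩ := kv_lad ψ
  refine ⟨ℓ, hℓ, fun n N R G hR hG => ?_⟩
  have hfin : Finite (LadU (Fin n) (EdgeOf R) (fun _ => ℓ)) := finite_ladU _
  have h1 := h (Fin n) (EdgeOf R) (fun _ => ℓ) (fun e u => u = e.1.1) (fun e u => u = e.1.2)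
    (fun _ _ => False) (fun _ => le_rfl) (kv_of_hasAll hK hS
      ⟨lad_irrefl (fun _ h => h) _, lad_symm (fun _ _ h => h) _⟩ (starForest R))
  obtain ⟨e, he⟩ := id hG
  let g : Fin n ⊕ EdgeOf R × Fin ℓ → LadU (Fin n) (EdgeOf R) (fun _ => ℓ) := fun x => match x with
    | .inl u => .inl u
    | .inr x => .inr ⟨(x.1, x.2, true), x.2.2⟩
  have hg : Function.Injective g := by
    rintro (u | ⟨p, k⟩) (v | ⟨p', k'⟩) h
    · exact congrArg Sum.inl (Sum.inl_injective h)
    · exact absurd h (by simp [g])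
    · exact absurd h (by simp [g])
    · have h2 := congrArg Subtype.val (Sum.inr_injective h)
      simp only [Prod.mk.injEq] at h2
      rw [h2.1, Fin.ext h2.2.1]
  have hstep : ∀ x y, subStep ℓ R x y → lad (fun _ => ℓ) (fun (e : EdgeOf R) u => u = e.1.1)
      (fun e u => u = e.1.2) (fun _ _ => False) true (g x) (g y) := by
    rintro (u | ⟨p, k⟩) (v | ⟨p', k'⟩) h
    · exact absurd h.1 (by omega)
    · exact Or.inl ⟨h.1, h.2, rfl⟩
    · exact Or.inr ⟨h.1, h.2, rfl⟩
    · exact Or.inl ⟨h.1, rfl, Or.inl h.2⟩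
  refine mem_of_kv hK hM h1 (isSubdiv_graph hG) ⟨fun x => g (e x), hg.comp e.injective,
    fun x y hxy => ?_⟩
  rcases (he x y).1 hxy with h2 | h2
  · exact hstep _ _ h2
  · exact lad_symm (fun _ _ h => h) _ _ _ (hstep _ _ h2)

end Pool.Agent.Helper29.EX
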