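import Pool.Agent.Helper29.EX.MonoSub
import Pool.Agent.Helper20.FS.Wild
import Pool.Agent.Helper20.FS.Gap

/-!
# Definable classes of graphs closed under subgraphs: universal spectra

A first-order definable class of graphs which is closed under subgraphs and contains all finite subgraphs of
`claws` has a universal spectrum.
-/

set_option autoImplicit false

namespace Pool.Agent.Helper29.EX

open FirstOrder FirstOrder.Language Pool.Agent.Helper20.Spectra Pool.Agent.Helper20.OP Pool.Agent.Helper20.FS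
open Pool.Agent.Helper20.EX (Monotone)

/-- the claw forest -/
lemma clawForest {T : Type} [Finite T] (n : T × Fin 3 → ℕ) (M : T × Fin 3 → T × Fin 3 → Prop)
    (hM : Mat M) (hn : ∀ b, 2 ≤ n b) (he : ∀ b, n b % 2 = 0) : Contains Kind.graph
    (fun _ : Fin 1 => lad (B := T) (ι := T × Fin 3) n (fun e u => u = e.1)
      (fun _ _ => False) M false) claws := by
  obtain ⟨sg, -, h2, h3, h4⟩ := exists_seg n M hM hn he
  have hsg : ∀ b i b' i', i < n b → i' < n b' → sg b i = sg b' i' → b = b' ∧ i = i' := by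
    intro b i b' i' hi hi' h
    by_cases hb : b = b'
    · subst hb
      refine ⟨rfl, ?_⟩
      rcases h2 b with h5 | ⟨b'', _, h5, _⟩
      · rw [h5 i hi, h5 i' hi'] at h
        exact congrArg Prod.snd h
      · rw [h5 i hi, h5 i' hi'] at h
        have := congrArg Prod.snd h
        simp only at this
        omega
    · exfalso
      obtain ⟨_, ⟨h5, h6⟩ | ⟨h5, h6⟩⟩ := h3 b b' i i' hb hi hi' (congrArg Prod.fst h)
      · rw [h5, h6] at h
        have := congrArg Prod.snd h
        simp only at this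
        omega
      · rw [h5, h6] at h
        have := congrArg Prod.snd h
        simp only at this
        omega
  obtain ⟨cT, hcT⟩ : ∃ c : T → ℕ, Function.Injective c := by
    obtain ⟨k, ⟨e⟩⟩ := Finite.exists_equiv_fin T
    exact ⟨fun x => e x, fun x y h => e.injective (Fin.ext h)⟩
  obtain ⟨cB, hcB⟩ : ∃ c : T × Fin 3 → ℕ, Function.Injective c := by
    obtain ⟨k, ⟨e⟩⟩ := Finite.exists_equiv_fin (T × Fin 3)
    exact ⟨fun x => e x, fun x y h => e.injective (Fin.ext h)⟩
  let f : LadU T (T × Fin 3) n → ℕ × Option (Fin 3 × ℕ) := fun x => match x with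
    | .inl u => (2 * cT u, none)
    | .inr x => if x.1.2.2 = true then
          (2 * cB (sg x.1.1 x.1.2.1).1 + 1, some (0, (sg x.1.1 x.1.2.1).2))
        else (2 * cT x.1.1.1, some (x.1.1.2, x.1.2.1))
  have hfl : ∀ u, f (.inl u) = (2 * cT u, none) := fun _ => rfl
  have hft : ∀ b i (h : i < n b), f (.inr ⟨(b, i, true), h⟩) =
      (2 * cB (sg b i).1 + 1, some (0, (sg b i).2)) := fun b i h => rfl
  have hff : ∀ b i (h : i < n b), f (.inr ⟨(b, i, false), h⟩) =
      (2 * cT b.1, some (b.2, i)) := fun b i h => rfl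
  refine ⟨f, ?_, ?_⟩
  · rintro (u | ⟨⟨b, i, s⟩, hi⟩) (v | ⟨⟨b', i', s'⟩, hi'⟩) h
    · rw [hfl, hfl] at h
      have := congrArg Prod.fst h
      simp only at this
      exact congrArg Sum.inl (hcT (by omega))
    · cases s'
      · rw [hfl, hff _ _ hi'] at h
        exact absurd (congrArg Prod.snd h) (by simp)
      · rw [hfl, hft _ _ hi'] at h
        exact absurd (congrArg Prod.snd h) (by simp)
    · cases s
      · rw [hfl, hff _ _ hi] at h
        exact absurd (congrArg Prod.snd h) (by simp)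
      · rw [hfl, hft _ _ hi] at h
        exact absurd (congrArg Prod.snd h) (by simp)
    · simp only at hi hi'
      cases s <;> cases s'
      · rw [hff _ _ hi, hff _ _ hi'] at h
        simp only [Prod.mk.injEq, Option.some.injEq] at h
        have h1 : b = b' := Prod.ext (hcT (by omega)) h.2.1
        have h2 : i = i' := h.2.2
        subst h1
        subst h2
        rfl
      · rw [hff _ _ hi, hft _ _ hi'] at h
        simp only [Prod.mk.injEq, Option.some.injEq] at h
        omega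
      · rw [hft _ _ hi, hff _ _ hi'] at h
        simp only [Prod.mk.injEq, Option.some.injEq] at h
        omega
      · rw [hft _ _ hi, hft _ _ hi'] at h
        simp only [Prod.mk.injEq, Option.some.injEq] at h
        have h1 : (sg b i).1 = (sg b' i').1 := hcB (by omega)
        obtain ⟨rfl, rfl⟩ := hsg b i b' i' hi hi' (Prod.ext h1 h.2.2)
        rfl
  · have key : ∀ (u : T) (y : {x : (T × Fin 3) × ℕ × Bool // x.2.1 < n x.1}),
        ((u = y.1.1.1 ∧ y.1.2.1 = 0 ∧ y.1.2.2 = false) ∨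
          (False ∧ y.1.2.1 + 1 = n y.1.1 ∧ y.1.2.2 = true)) →
        (f (.inl u)).1 = (f (.inr y)).1 ∧ clawStep (f (.inl u)).2 (f (.inr y)).2 := by
      rintro u ⟨⟨e, i, s⟩, hi⟩ (⟨h1, h2, h3⟩ | ⟨h1, h2, h3⟩)
      · simp only at hi h1 h2 h3
        subst h3
        rw [hfl, hff _ _ hi]
        exact ⟨by rw [h1], h2⟩
      · exact h1.elim
    rintro (u | x) (v | y) h
    · exact h.elim
    · obtain ⟨h1, h2⟩ := key u y h
      exact ⟨h1, Or.inl h2⟩
    · obtain ⟨h1, h2⟩ := key v x h
      exact ⟨h1.symm, Or.inr h2⟩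
    · obtain ⟨⟨e, i, s⟩, hi⟩ := x
      obtain ⟨⟨e', i', s'⟩, hi'⟩ := y
      simp only at hi hi'
      rcases h with h | h
      · simp only at h
        obtain ⟨rfl, rfl, h5⟩ := h
        cases s
        · rw [hff _ _ hi, hff _ _ hi']
          exact ⟨rfl, h5.imp (fun h => ⟨rfl, h⟩) (fun h => ⟨rfl, h⟩)⟩
        · rw [hft _ _ hi, hft _ _ hi']
          rcases h2 e with h6 | ⟨b'', _, h6, _⟩
          · rw [h6 i hi, h6 i' hi']
            exact ⟨rfl, h5.imp (fun h => ⟨rfl, h⟩) (fun h => ⟨rfl, h⟩)⟩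
          · rw [h6 i hi, h6 i' hi']
            refine ⟨rfl, ?_⟩
            rcases h5 with h5 | h5
            · exact Or.inr ⟨rfl, by simp only; omega⟩
            · exact Or.inl ⟨rfl, by simp only; omega⟩
      · simp only at h
        obtain ⟨hMe, ⟨hie, hie'⟩, rfl, rfl⟩ := h
        have hne : e ≠ e' := fun h => hM.irr e (by rw [← h] at hMe; exact hMe)
        rw [hft _ _ hi, hft _ _ hi']
        obtain ⟨_, ⟨h5, h6⟩ | ⟨h5, h6⟩⟩ := h3 e e' i i' hne hi hi' (h4 e e' i i' hMe hi hi')
        · rw [h5, h6]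
          exact ⟨rfl, Or.inl ⟨rfl, by simp only; omega⟩⟩
        · rw [h5, h6]
          exact ⟨rfl, Or.inr ⟨rfl, by simp only; omega⟩⟩

/-- the models of the coding are in the class -/
theorem mono_models {K : ∀ n : ℕ, Str 1 (Fin n) → Prop} {ψ : (binLang 1).Sentence}
    (hK : DefBy K ψ) (hM : Monotone K) (hS : HasAll claws K) :
    ∃ k, 1 ≤ k ∧ HasModels (KV ψ) skG True k := by
  obtain ⟨ℓ, hℓ, h⟩ := kv_lad ψ
  refine ⟨ℓ, hℓ, fun T _ n M hMat h2 he => ?_⟩
  have hn : ∀ b, 2 ≤ n b := fun b => by have := h2 b; omega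
  have hVE := finite_VE n
  have hfin : Finite (LadU T (T × Fin 3) n) := finite_ladU _
  have h1 := h T (T × Fin 3) n (fun e u => u = e.1) (fun _ _ => False) M
    (fun b => by have := h2 b; omega) (kv_of_hasAll hK hS
      ⟨lad_irrefl hMat.irr _, lad_symm hMat.symm _⟩ (clawForest n M hMat hn he))
  refine ⟨T ⊕ VE n, inferInstance, strG n M, _, _, ?_, legModel_G n M hMat hn⟩
  obtain ⟨q, hq⟩ := Inv.of_def (def_kv ψ)
  let e : (T ⊕ VE n) ≃ Fin (Nat.card (T ⊕ VE n)) := Finite.equivFin _
  have hgr := strG_graph n M hMat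
  have h3 : KV ψ (T ⊕ VE n) (fun _ => strG n M 0) := by
    refine (transport e hq).2 ((hK _ _).1 (mem_of_kv hK hM h1 ⟨fun _ => hgr.1 _, fun _ _ => hgr.2 _ _⟩ ?_))
    let g : T ⊕ VE n → LadU T (T × Fin 3) n := fun x => match x with
      | .inl u => .inl u
      | .inr x => .inr ⟨(x.1.1, x.1.2, true), x.2⟩
    have hg : Function.Injective g := by
      rintro (u | ⟨⟨b, i⟩, hi⟩) (v | ⟨⟨b', i'⟩, hi'⟩) h
      · exact congrArg Sum.inl (Sum.inl_injective h)
      · exact absurd h (by simp [g])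
      · exact absurd h (by simp [g])
      · have h2 := congrArg Subtype.val (Sum.inr_injective h)
        simp only [Prod.mk.injEq] at h2
        obtain ⟨rfl, rfl, -⟩ := h2
        rfl
    refine ⟨fun x => g (e.symm x), hg.comp e.symm.injective, fun x y hxy => ?_⟩
    have hstep : ∀ x y, strG n M 0 x y → lad n (fun (e : T × Fin 3) u => u = e.1)
        (fun _ _ => False) M true (g x) (g y) := by
      rintro (u | ⟨⟨b, i⟩, hi⟩) (v | ⟨⟨b', i'⟩, hi'⟩) h
      · exact h.elim
      · exact Or.inl ⟨h.2.symm, h.1, rfl⟩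
      · exact Or.inl ⟨h.2.symm, h.1, rfl⟩
      · rcases h with ⟨h4, h5⟩ | ⟨h4, h5⟩
        · exact Or.inl ⟨h4, rfl, h5.imp Eq.symm Eq.symm⟩
        · exact Or.inr ⟨h4, h5, rfl, rfl⟩
    exact hstep _ _ hxy
  have h4 : strG n M = fun _ => strG n M 0 := str_eq _
  rw [h4]
  exact h3

theorem mono_wild {K : ∀ n : ℕ, Str 1 (Fin n) → Prop} {ψ : (binLang 1).Sentence}
    (hK : DefBy K ψ) (hM : Monotone K) (hS : HasAll claws K) : Wild (KV ψ) := by
  obtain ⟨k, hk, h⟩ := mono_models hK hM hS
  exact wild_of_coding (coding_of_sk defSk_G hk h) (def_kv ψ) (fun V R => R)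
    (fun r => Def.rel r 0 1) (fun V _ R hR => ⟨R, hR, rfl⟩)

end Pool.Agent.Helper29.EX
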