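import Pool.Agent.Helper29.EX.Deg

/-!
# Graphs which omit a forest of subdivided stars
-/

set_option autoImplicit false

namespace Pool.Agent.Helper29.EX

open Pool.Agent.Helper20.OP Pool.Agent.Helper20.FS
open Pool.Agent.Helper20.EX (stars starStep)

/-- Large disjoint stars contain every finite subgraph of `stars`. -/
theorem stars_contains {s : ℕ} {P : Str 1 (Fin s)} (hP : Contains Kind.graph P stars) :
    ∃ k D ℓ : ℕ, ∀ (V : Type) (E : V → V → Prop), Gr E → ∀ c h, Stars E k D ℓ c h →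
      Contains Kind.graph P (fun _ => E) := by
  classical
  obtain ⟨f, hf, hfE⟩ := hP
  obtain ⟨N, hN⟩ : ∃ N : ℕ, ∀ x, (f x).1 < N ∧ ∀ j i, (f x).2 = some (j, i) → j < N ∧ i < N := by
    let g : Fin s → ℕ := fun x => (f x).1 + ((f x).2.elim 0 fun p => p.1 + p.2)
    refine ⟨(Finset.univ.sup g) + 1, fun x => ?_⟩
    have h1 : g x ≤ Finset.univ.sup g := Finset.le_sup (Finset.mem_univ x)
    have h2 : g x = (f x).1 + ((f x).2.elim 0 fun p => p.1 + p.2) := rfl
    refine ⟨by omega, fun j i hji => ?_⟩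
    rw [hji] at h2
    simp only [Option.elim_some] at h2
    omega
  refine ⟨N, N, N, fun V E hE c h hs => ?_⟩
  let e : ℕ × Option (ℕ × ℕ) → V := fun x => x.2.elim (c x.1) fun p => h x.1 p.1 p.2
  refine ⟨fun x => e (f x), ?_, ?_⟩
  · intro x y hxy
    apply hf
    have hx := hN x
    have hy := hN y
    rcases hfx : f x with ⟨a, u⟩
    rcases hfy : f y with ⟨b, w⟩
    simp only [hfx, hfy] at hx hy hxy
    rcases u with _ | ⟨j, i⟩ <;> rcases w with _ | ⟨j', i'⟩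
    · have := hs.cc a hx.1 b hy.1 hxy
      rw [this]
    · exact absurd hxy (hs.ch a hx.1 b hy.1 j' (hy.2 _ _ rfl).1 i' (hy.2 _ _ rfl).2)
    · exact absurd hxy.symm (hs.ch b hy.1 a hx.1 j (hx.2 _ _ rfl).1 i (hx.2 _ _ rfl).2)
    · have h1 := hs.hh a hx.1 b hy.1 j (hx.2 _ _ rfl).1 i (hx.2 _ _ rfl).2 j' (hy.2 _ _ rfl).1 i'
        (hy.2 _ _ rfl).2 hxy
      subst h1
      obtain ⟨rfl, rfl⟩ := (hs.fan a hx.1).inj j (hx.2 _ _ rfl).1 i (hx.2 _ _ rfl).2 j'
        (hy.2 _ _ rfl).1 i' (hy.2 _ _ rfl).2 hxy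
      rfl
  · have key : ∀ x y, (f x).1 = (f y).1 → starStep (f x).2 (f y).2 → E (e (f x)) (e (f y)) := by
      intro x y h1 h2
      have hx := hN x
      have hy := hN y
      rcases hfx : f x with ⟨a, u⟩
      rcases hfy : f y with ⟨b, w⟩
      simp only [hfx, hfy] at hx hy h1 h2
      subst h1
      rcases u with _ | ⟨j, i⟩ <;> rcases w with _ | ⟨j', i'⟩
      · exact h2.elim
      · have h3 : i' = 0 := h2
        subst h3
        exact (hs.fan a hx.1).nb j' (hy.2 _ _ rfl).1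
      · exact h2.elim
      · obtain ⟨h3, h4⟩ : j = j' ∧ i' = i + 1 := h2
        subst h3
        subst h4
        exact (hs.fan a hx.1).st j (hx.2 _ _ rfl).1 i (hy.2 _ _ rfl).2
    intro x y hxy
    obtain ⟨h1, h2 | h2⟩ := hfE x y hxy
    · exact key x y h1 h2
    · exact hE.symm _ _ (key y x h1.symm h2)

/-- Trimmed graphs which omit a forest of subdivided stars have bounded degree outside a small set. -/
theorem bd_of_omit {s : ℕ} {P : Str 1 (Fin s)} (hP : Contains Kind.graph P stars) :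
    ∃ z r : ℕ, ∀ t : ℕ, ∃ d u : ℕ, ∀ (V : Type) [Finite V] (E : V → V → Prop), Gr E →
      ¬ Contains Kind.graph P (fun _ => E) → (∀ c, 1 ≤ c → c ≤ u → ¬ Av E r (t + 1) c) →
      BD z d E := by
  obtain ⟨k, D, ℓ, hk⟩ := stars_contains hP
  refine ⟨k * (D * ℓ + 1), k * (D * ℓ + 1) + D * ℓ + 1 + ℓ, fun t => ?_⟩
  obtain ⟨d, u, hd⟩ := deg t D ℓ (k * (D * ℓ + 1))
  refine ⟨d, u, fun V _ E hE hno hA => ?_⟩
  obtain ⟨Z, hZ, hZ'⟩ := (packing E D ℓ k).resolve_left fun ⟨c, h, hs⟩ => hno (hk V E hE c h hs)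
  have h1 : Nat.card Z = Z.ncard := rfl
  let e : Z ≃ Fin Z.ncard := Finite.equivFinOfCardEq h1
  have hr : Set.range (fun i => (e.symm i : V)) = Z := by
    ext x
    constructor
    · rintro ⟨i, rfl⟩
      exact (e.symm i).2
    · exact fun hx => ⟨e ⟨x, hx⟩, by simp⟩
  refine ⟨Z.ncard, hZ, fun i => e.symm i, fun x hx => ?_⟩
  rw [hr] at hx ⊢
  rintro ⟨g, hg, hg'⟩
  have h2 := hd _ V E hE Z x hZ hx le_rfl hA (hZ' x hx)
  have h3 : (Set.range g).ncard ≤ {w | E x w ∧ w ∉ Z}.ncard := Set.ncard_le_ncard (by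
    rintro _ ⟨i, rfl⟩
    exact ⟨(hg' i).2, (hg' i).1⟩) (Set.toFinite _)
  have h4 : (Set.range g).ncard = d + 1 := by
    rw [← Set.image_univ, Set.ncard_image_of_injective _ hg, Set.ncard_univ, Nat.card_fin]
  omega

end Pool.Agent.Helper29.EX
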