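import Pool.Agent.Helper29.EX.Dup
import Mathlib.SetTheory.Cardinal.Finite

/-!
# Removal of copies
-/

set_option autoImplicit false

namespace Pool.Agent.Helper29.EX

open Pool.Agent.Helper20.OP

variable {V W : Type} {E : V → V → Prop} {S : Set V} {m s : ℕ} {f : Fin m → Fin s → V}

/-- the induced graph -/
abbrev ind (E : V → V → Prop) (p : V → Prop) : {x // p x} → {x // p x} → Prop := fun x y => E x.1 y.1

lemma Gr.ind (hE : Gr E) (p : V → Prop) : Gr (ind E p) :=
  ⟨fun x => hE.irr x.1, fun x y => hE.symm x.1 y.1⟩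

lemma Cp.sub {r : ℕ} {σ : Fin r → V} (hf : Cp E (Set.range σ) m s f) {p : V → Prop} (h1 : ∀ i, p (σ i))
    (h2 : ∀ i a, p (f i a)) : Cp (EX.ind E p) (Set.range fun i => (⟨σ i, h1 i⟩ : {x // p x})) m s
      (fun i a => ⟨f i a, h2 i a⟩) := by
  refine ⟨fun i a j b h => hf.inj i a j b (congrArg Subtype.val h), ?_, ?_, fun i j a b =>
    hf.iso i j a b, ?_, fun i A hA h => hf.con i A hA fun a ha b hab => h a ha b hab⟩
  · rintro i a ⟨x, hx⟩
    exact hf.out i a ⟨x, congrArg Subtype.val hx⟩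
  · intro i a w hw
    rcases hf.clo i a w.1 hw with ⟨x, hx⟩ | ⟨b, hb⟩
    · exact Or.inl ⟨x, Subtype.ext hx⟩
    · exact Or.inr ⟨b, Subtype.ext hb⟩
  · rintro i j a _ ⟨x, rfl⟩
    exact hf.att i j a _ ⟨x, rfl⟩

lemma Cp.sel (hf : Cp E S m s f) {m' : ℕ} (e : Fin m' → Fin m) (he : Function.Injective e) :
    Cp E S m' s (fun i => f (e i)) :=
  ⟨fun i a j b h => ⟨he (hf.inj _ _ _ _ h).1, (hf.inj _ _ _ _ h).2⟩, fun i => hf.out _,
    fun i => hf.clo _, fun i j => hf.iso _ _, fun i j => hf.att _ _, fun i => hf.con _⟩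

/-- a copy which avoids `r` elements -/
lemma exists_avoid (hf : Cp E S m s f) {r : ℕ} (hr : r < m) (c : Fin r → V) :
    ∃ k, ∀ i b, c i ≠ f k b := by
  classical
  have hm : 0 < m := by omega
  let h : Fin r → Fin m := fun i => if hi : ∃ k b, c i = f k b then hi.choose else ⟨0, hm⟩
  have hns : ¬ Function.Surjective h := by
    intro hs
    have := Fintype.card_le_of_surjective h hs
    simp at this
    omega
  obtain ⟨k, hk⟩ := not_forall.1 hns
  refine ⟨k, fun i b hb => hk ⟨i, ?_⟩⟩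
  have hi : ∃ k b, c i = f k b := ⟨k, b, hb⟩
  show (if hi : ∃ k b, c i = f k b then hi.choose else ⟨0, hm⟩) = k
  rw [dif_pos hi]
  obtain ⟨b', hb'⟩ := hi.choose_spec
  exact (hf.inj _ _ _ _ (hb'.symm.trans hb)).1

/-- A connected copy which avoids `T` and meets a closed copy over `T` is contained in it. -/
lemma Cp.absorb (hf : Cp E S m s f) {T : Set V} {m' c : ℕ} {h : Fin m' → Fin c → V}
    (hh : ∀ i a w, E (h i a) w → w ∈ T ∨ ∃ b, w = h i b) (k : Fin m) (hk : ∀ b, f k b ∉ T)
    {i : Fin m'} {a : Fin c} {b : Fin s} (hab : f k b = h i a) : s ≤ c := by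
  have key := hf.con k {b | ∃ a, f k b = h i a} ⟨b, a, hab⟩ (by
    rintro b ⟨a, ha⟩ b' hb'
    rw [ha] at hb'
    rcases hh i a _ hb' with h1 | h1
    · exact absurd h1 (hk b')
    · exact h1)
  have h1 : ∀ b, ∃ a, f k b = h i a := fun b => by
    have : b ∈ (Set.univ : Set (Fin s)) := Set.mem_univ b
    rw [← key] at this
    exact this
  choose e he using h1
  have hinj : Function.Injective e := by
    intro x y hxy
    have : f k x = f k y := by rw [he, he, hxy]
    exact (hf.inj _ _ _ _ this).2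
  simpa using Fintype.card_le_of_injective e hinj

/-- outside the first copy -/
abbrev off {t : ℕ} (f : Fin (t + 1) → Fin s → V) : V → Prop := fun x => ∀ b, x ≠ f 0 b

/-- Availability persists when a copy of at least the same size is removed. -/
theorem av_rem (hE : Gr E) {r r' t μ : ℕ} (hrt : r ≤ t) {σ : Fin r' → V} (hr' : r' ≤ r)
    {f : Fin (t + 1) → Fin μ → V} (hf : Cp E (Set.range σ) (t + 1) μ f) (hs : s ≤ μ) (hs0 : 1 ≤ s)
    (h : Av E r t s) : Av (ind E (off f)) r t s := by
  rcases Nat.lt_or_ge s μ with hlt | hge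
  · obtain ⟨r₁, hr₁, σ₁, g, hg⟩ := h
    obtain ⟨k, hk⟩ := exists_avoid hf (by omega : r₁ < t + 1) σ₁
    have hτ : ∀ x y, E (swp f 0 k x) (swp f 0 k y) ↔ E x y := swp_aut hE hf 0 k
    have hg' := hg.map (E' := E) (swp f 0 k) (swp f 0 k) (swp_swp hf 0 k) (swp_swp hf 0 k) hτ
    have h1 : ∀ i, off f (swp f 0 k (σ₁ i)) := by
      intro i b hb
      have := congrArg (swp f 0 k) hb
      rw [swp_swp hf, swp_left hf] at this
      exact hk i b this
    have h2 : ∀ i a, off f (swp f 0 k (g i a)) := by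
      intro i a b hb
      have h3 : μ ≤ s := hf.absorb (T := Set.range (swp f 0 k ∘ σ₁))
        (h := fun i a => swp f 0 k (g i a)) hg'.clo 0 (by
          rintro b ⟨x, hx⟩
          exact h1 x b hx) (hb.symm)
      omega
    exact ⟨r₁, hr₁, _, _, hg'.sub h1 h2⟩
  · obtain rfl : s = μ := le_antisymm hs hge
    have h2 : ∀ i : Fin t, ∀ a, off f (f i.succ a) := by
      intro i a b hb
      exact Fin.succ_ne_zero i (hf.inj _ _ _ _ hb).1
    exact ⟨r', hr', _, _, (hf.sel Fin.succ (Fin.succ_injective t)).sub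
      (fun i b hb => hf.out 0 b ⟨i, hb⟩) h2⟩

/-- Copies of a smaller piece in the remaining graph were there before. -/
theorem av_up (hE : Gr E) {r r' t μ c t' : ℕ} (hrt : r < t) {σ : Fin r' → V}
    {f : Fin (t + 1) → Fin μ → V} (hf : Cp E (Set.range σ) (t + 1) μ f) (hc : c < μ)
    (h : Av (ind E (off f)) r t' c) : Av E r t' c := by
  obtain ⟨r₁, hr₁, τ, g, hg⟩ := h
  refine ⟨r₁, hr₁, fun i => (τ i).1, fun i a => (g i a).1, ?_⟩
  refine ⟨fun i a j b h => hg.inj i a j b (Subtype.ext h), ?_, ?_, fun i j a b =>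
    hg.iso i j a b, ?_, fun i A hA h => hg.con i A hA fun a ha b hab => h a ha b hab⟩
  · rintro i a ⟨x, hx⟩
    exact hg.out i a ⟨x, Subtype.ext hx⟩
  · intro i a w hw
    by_cases hw' : off f w
    · rcases hg.clo i a ⟨w, hw'⟩ hw with ⟨x, hx⟩ | ⟨b, hb⟩
      · exact Or.inl ⟨x, congrArg Subtype.val hx⟩
      · exact Or.inr ⟨b, congrArg Subtype.val hb⟩
    · exfalso
      have : ∃ b, w = f 0 b := by
        by_contra h
        exact hw' fun b hb => h ⟨b, hb⟩
      obtain ⟨b, rfl⟩ := this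
      -- a copy with positive number which avoids the set of `g`
      obtain ⟨k, hk⟩ := exists_avoid (hf.sel Fin.succ (Fin.succ_injective t))
        (by omega : r₁ < t) (fun i => (τ i).1)
      have h1 : E (f k.succ b) (g i a).1 := by
        have h2 : (g i a).1 ∈ Set.range σ := by
          rcases hf.clo 0 b _ (hE.symm _ _ hw) with h3 | ⟨b', hb'⟩
          · exact h3
          · exact absurd hb' ((g i a).2 b')
        exact (hf.att 0 k.succ b _ h2).1 (hE.symm _ _ hw)
      have hoff : ∀ b, off f (f k.succ b) := fun b b' hb' =>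
        Fin.succ_ne_zero k (hf.inj _ _ _ _ hb').1
      have h3 : ∃ b', (⟨f k.succ b, hoff b⟩ : {x // off f x}) = g i b' := by
        rcases hg.clo i a ⟨f k.succ b, hoff b⟩ (hE.symm _ _ h1) with ⟨x, hx⟩ | h4
        · exact absurd (congrArg Subtype.val hx) (hk x b)
        · exact h4
      obtain ⟨b', hb'⟩ := h3
      have h4 : μ ≤ c := (hf.sel Fin.succ (Fin.succ_injective t)).absorb
        (T := Set.range (fun i => (τ i).1) ∪ {x | ¬ off f x}) (h := fun i a => (g i a).1)
        (fun i a w hw => by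
          by_cases hw' : off f w
          · rcases hg.clo i a ⟨w, hw'⟩ hw with ⟨x, hx⟩ | ⟨b, hb⟩
            · exact Or.inl (Or.inl ⟨x, congrArg Subtype.val hx⟩)
            · exact Or.inr ⟨b, congrArg Subtype.val hb⟩
          · exact Or.inl (Or.inr hw')) k (by
          rintro b (⟨x, hx⟩ | hx)
          · exact hk x b hx
          · exact hx (hoff b)) (i := i) (a := b') (b := b) (congrArg Subtype.val hb')
      omega
  · rintro i j a _ ⟨x, rfl⟩
    exact hg.att i j a _ ⟨x, rfl⟩

end Pool.Agent.Helper29.EX
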