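import Pool.Agent.Helper29.EX.Defs

/-!
# The exchange of two copies
-/

set_option autoImplicit false

namespace Pool.Agent.Helper29.EX

variable {V : Type} {E : V → V → Prop} {S : Set V} {m s : ℕ} {f : Fin m → Fin s → V}

/-- the exchange of the copies `i` and `j` -/
noncomputable def swp (f : Fin m → Fin s → V) (i j : Fin m) (x : V) : V := by
  classical
  exact if h : ∃ a, x = f i a then f j h.choose else if h : ∃ a, x = f j a then f i h.choose else x

lemma swp_left (hf : Cp E S m s f) (i j : Fin m) (a : Fin s) : swp f i j (f i a) = f j a := by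
  classical
  have h : ∃ b, f i a = f i b := ⟨a, rfl⟩
  unfold swp
  rw [dif_pos h]
  have := (hf.inj _ _ _ _ h.choose_spec).2
  rw [← this]

lemma swp_right (hf : Cp E S m s f) (i j : Fin m) (a : Fin s) : swp f i j (f j a) = f i a := by
  classical
  by_cases hij : i = j
  · subst hij
    exact swp_left hf i i a
  · have h : ∃ b, f j a = f j b := ⟨a, rfl⟩
    have h' : ¬ ∃ b, f j a = f i b := fun ⟨b, hb⟩ => hij (hf.inj _ _ _ _ hb).1.symm
    unfold swp
    rw [dif_neg h', dif_pos h]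
    have := (hf.inj _ _ _ _ h.choose_spec).2
    rw [← this]

lemma swp_other (f : Fin m → Fin s → V) {i j : Fin m} {x : V} (h1 : ∀ a, x ≠ f i a)
    (h2 : ∀ a, x ≠ f j a) : swp f i j x = x := by
  classical
  unfold swp
  rw [dif_neg (fun ⟨a, ha⟩ => h1 a ha), dif_neg (fun ⟨a, ha⟩ => h2 a ha)]

lemma swp_swp (hf : Cp E S m s f) (i j : Fin m) (x : V) : swp f i j (swp f i j x) = x := by
  by_cases h1 : ∃ a, x = f i a
  · obtain ⟨a, rfl⟩ := h1
    rw [swp_left hf, swp_right hf]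
  · by_cases h2 : ∃ a, x = f j a
    · obtain ⟨a, rfl⟩ := h2
      rw [swp_right hf, swp_left hf]
    · push Not at h1 h2
      rw [swp_other f h1 h2, swp_other f h1 h2]

lemma swp_inj (hf : Cp E S m s f) (i j : Fin m) : Function.Injective (swp f i j) :=
  Function.LeftInverse.injective (swp_swp hf i j)

/-- in the copies and outside -/
lemma cases3 (f : Fin m → Fin s → V) (i j : Fin m) (x : V) :
    (∃ a, x = f i a) ∨ (∃ a, x = f j a) ∨ ((∀ a, x ≠ f i a) ∧ ∀ a, x ≠ f j a) := by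
  by_cases h1 : ∃ a, x = f i a
  · exact Or.inl h1
  · by_cases h2 : ∃ a, x = f j a
    · exact Or.inr (Or.inl h2)
    · push Not at h1 h2
      exact Or.inr (Or.inr ⟨h1, h2⟩)

lemma Cp.att' (hf : Cp E S m s f) (i j : Fin m) (a : Fin s) {y : V} (h1 : ∀ b, y ≠ f i b)
    (h2 : ∀ b, y ≠ f j b) : E (f i a) y ↔ E (f j a) y := by
  by_cases hy : y ∈ S
  · exact hf.att i j a y hy
  · constructor
    · intro h
      rcases hf.clo _ _ _ h with h3 | ⟨b, hb⟩
      · exact absurd h3 hy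
      · exact absurd hb (h1 b)
    · intro h
      rcases hf.clo _ _ _ h with h3 | ⟨b, hb⟩
      · exact absurd h3 hy
      · exact absurd hb (h2 b)

lemma Cp.no (hf : Cp E S m s f) {i j : Fin m} (hij : i ≠ j) (a b : Fin s) : ¬ E (f i a) (f j b) := by
  intro h
  rcases hf.clo _ _ _ h with h1 | ⟨c, hc⟩
  · exact hf.out _ _ h1
  · exact hij (hf.inj _ _ _ _ hc).1.symm

/-- The exchange is an automorphism. -/
theorem swp_aut (hE : Gr E) (hf : Cp E S m s f) (i j : Fin m) (x y : V) :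
    E (swp f i j x) (swp f i j y) ↔ E x y := by
  by_cases hij : i = j
  · subst hij
    have h : ∀ x, swp f i i x = x := by
      intro x
      rcases cases3 f i i x with ⟨a, rfl⟩ | ⟨a, rfl⟩ | ⟨h1, h2⟩
      · exact swp_left hf i i a
      · exact swp_left hf i i a
      · exact swp_other f h1 h2
    rw [h, h]
  have sy : ∀ x y, E x y ↔ E y x := fun x y => ⟨hE.symm x y, hE.symm y x⟩
  rcases cases3 f i j x with ⟨a, rfl⟩ | ⟨a, rfl⟩ | ⟨h1, h2⟩
  · rw [swp_left hf]
    rcases cases3 f i j y with ⟨b, rfl⟩ | ⟨b, rfl⟩ | ⟨h3, h4⟩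
    · rw [swp_left hf]
      exact hf.iso _ _ _ _
    · rw [swp_right hf]
      exact iff_of_false (hf.no (Ne.symm hij) a b) (hf.no hij a b)
    · rw [swp_other f h3 h4]
      exact hf.att' j i a h4 h3
  · rw [swp_right hf]
    rcases cases3 f i j y with ⟨b, rfl⟩ | ⟨b, rfl⟩ | ⟨h3, h4⟩
    · rw [swp_left hf]
      exact iff_of_false (hf.no hij a b) (hf.no (Ne.symm hij) a b)
    · rw [swp_right hf]
      exact hf.iso _ _ _ _
    · rw [swp_other f h3 h4]
      exact hf.att' i j a h3 h4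
  · rw [swp_other f h1 h2]
    rcases cases3 f i j y with ⟨b, rfl⟩ | ⟨b, rfl⟩ | ⟨h3, h4⟩
    · rw [swp_left hf, sy x, sy x]
      exact hf.att' j i b h2 h1
    · rw [swp_right hf, sy x, sy x]
      exact hf.att' i j b h1 h2
    · rw [swp_other f h3 h4]

/-- transport of copies by an automorphism which is an involution -/
theorem Cp.map {V' : Type} {E' : V' → V' → Prop} {r : ℕ} {σ : Fin r → V} (hf : Cp E (Set.range σ) m s f)
    (τ : V → V') (τ' : V' → V) (h1 : ∀ x, τ' (τ x) = x) (h2 : ∀ y, τ (τ' y) = y)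
    (h3 : ∀ x y, E' (τ x) (τ y) ↔ E x y) : Cp E' (Set.range (τ ∘ σ)) m s (fun i a => τ (f i a)) := by
  have hi : Function.Injective τ := Function.LeftInverse.injective h1
  refine ⟨fun i a j b h => hf.inj _ _ _ _ (hi h), ?_, ?_, fun i j a b => ?_, ?_, fun i A hA h => ?_⟩
  · rintro i a ⟨x, hx⟩
    exact hf.out i a ⟨x, hi hx⟩
  · intro i a w hw
    rw [← h2 w, h3] at hw
    rcases hf.clo _ _ _ hw with ⟨x, hx⟩ | ⟨b, hb⟩
    · exact Or.inl ⟨x, by show τ (σ x) = w; rw [hx, h2]⟩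
    · exact Or.inr ⟨b, by rw [← hb, h2]⟩
  · rw [h3, h3]
    exact hf.iso i j a b
  · rintro i j a _ ⟨x, rfl⟩
    show E' (τ (f i a)) (τ (σ x)) ↔ E' (τ (f j a)) (τ (σ x))
    rw [h3, h3]
    exact hf.att i j a _ ⟨x, rfl⟩
  · exact hf.con i A hA fun a ha b hab => h a ha b ((h3 _ _).2 hab)

end Pool.Agent.Helper29.EX
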